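import Mathlib

/-! Elementary Fourier analysis on `ZMod M`. -/

namespace Pool.Agent.W288.NK

open Complex

/-- The exponential sum over a finite set of naturals. -/
noncomputable def F (M : ℕ) [NeZero M] (C : Finset ℕ) (z : ZMod M) : ℂ :=
  ∑ c ∈ C, (ZMod.stdAddChar (z * (c : ZMod M)) : ℂ)

/-- The geometric sum. -/
noncomputable def G (M : ℕ) [NeZero M] (R : ℕ) (z : ZMod M) : ℂ :=
  ∑ m ∈ Finset.range R, (ZMod.stdAddChar (z * (m : ZMod M)) : ℂ)

theorem norm_char (M : ℕ) [NeZero M] (z : ZMod M) : ‖(ZMod.stdAddChar z : ℂ)‖ = 1 := by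
  rw [ZMod.stdAddChar_apply]; exact Circle.norm_coe _

theorem orth (M : ℕ) [NeZero M] (x : ZMod M) :
    ∑ y : ZMod M, (ZMod.stdAddChar (y * x) : ℂ) = if x = 0 then (M : ℂ) else 0 := by
  have := AddChar.sum_mulShift x (ZMod.isPrimitive_stdAddChar M)
  rw [this, ZMod.card]
  split_ifs <;> simp

theorem normSq_F (M : ℕ) [NeZero M] (C : Finset ℕ) (z : ZMod M) :
    ((‖F M C z‖ ^ 2 : ℝ) : ℂ)
      = ∑ c ∈ C, ∑ c' ∈ C, (ZMod.stdAddChar (z * ((c : ZMod M) - (c' : ZMod M))) : ℂ) := by
  have h1 : ((‖F M C z‖ ^ 2 : ℝ) : ℂ) = F M C z * (starRingEnd ℂ) (F M C z) := by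
    rw [Complex.mul_conj, Complex.normSq_eq_norm_sq]
  rw [h1, F, map_sum, Finset.sum_mul_sum]
  apply Finset.sum_congr rfl; intro c _
  apply Finset.sum_congr rfl; intro c' _
  rw [← AddChar.map_neg_eq_conj, ← AddChar.map_add_eq_mul]
  congr 1; ring

theorem parseval (M : ℕ) [NeZero M] (C : Finset ℕ) (b : ℕ)
    (hb : ∀ r : ℕ, (C.filter (fun c => c % M = r)).card ≤ b) :
    ∑ z : ZMod M, ‖F M C z‖ ^ 2 ≤ (M : ℝ) * (C.card * b) := by
  have h1 : ((∑ z : ZMod M, ‖F M C z‖ ^ 2 : ℝ) : ℂ)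
      = ((∑ c ∈ C, (M : ℝ) * ((C.filter (fun c' => c' % M = c % M)).card : ℝ) : ℝ) : ℂ) := by
    rw [Complex.ofReal_sum]
    simp_rw [normSq_F]
    rw [Finset.sum_comm, Complex.ofReal_sum]
    apply Finset.sum_congr rfl; intro c _
    rw [Finset.sum_comm]
    simp_rw [orth]
    rw [Finset.card_filter]
    push_cast
    rw [Finset.mul_sum]
    apply Finset.sum_congr rfl; intro c' _
    by_cases h : c' % M = c % M
    · have h' : (c : ZMod M) - (c' : ZMod M) = 0 := by
        rw [sub_eq_zero, ZMod.natCast_eq_natCast_iff]; exact h.symm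
      simp [h, h']
    · have h' : ¬ ((c : ZMod M) - (c' : ZMod M) = 0) := by
        rw [sub_eq_zero, ZMod.natCast_eq_natCast_iff]
        intro h2; exact h h2.symm
      simp [h, h']
  have h2 := Complex.ofReal_injective h1
  rw [h2]
  calc ∑ c ∈ C, (M : ℝ) * ((C.filter (fun c' => c' % M = c % M)).card : ℝ)
      ≤ ∑ c ∈ C, (M : ℝ) * (b : ℝ) := by
        apply Finset.sum_le_sum; intro c _
        apply mul_le_mul_of_nonneg_left _ (Nat.cast_nonneg _)
        exact_mod_cast hb _
    _ = (M : ℝ) * (C.card * b) := by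
        rw [Finset.sum_const, nsmul_eq_mul]; ring

theorem count_bound (M : ℕ) [NeZero M] (C : Finset ℕ) (hC : ∀ c ∈ C, c < M) (R lam c0 : ℕ)
    (mu : ZMod M) (hmu : mu * (lam : ZMod M) = 1) :
    (M : ℝ) * (((Finset.range R).filter (fun m => (c0 + lam * m) % M ∈ C)).card : ℝ)
      ≤ ∑ y : ZMod M, ‖G M R y‖ * ‖F M C (-(y * mu))‖ := by
  have hM : 0 < M := Nat.pos_of_ne_zero (NeZero.ne M)
  have hcnt : ∀ m : ℕ, ((if (c0 + lam * m) % M ∈ C then 1 else 0 : ℕ) : ℂ)
      = ∑ c ∈ C, if ((m : ZMod M) - mu * ((c : ZMod M) - (c0 : ZMod M))) = 0 then 1 else 0 := by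
    intro m
    have key : ∀ c ∈ C, (((m : ZMod M) - mu * ((c : ZMod M) - (c0 : ZMod M))) = 0 ↔
        c = (c0 + lam * m) % M) := by
      intro c hc
      have hcM := hC c hc
      constructor
      · intro h
        have h1 : (c : ZMod M) = ((c0 + lam * m : ℕ) : ZMod M) := by
          push_cast
          have h2 : (m : ZMod M) = mu * ((c : ZMod M) - (c0 : ZMod M)) := sub_eq_zero.mp h
          rw [h2]
          linear_combination (-((c : ZMod M) - (c0 : ZMod M))) * hmu
        rw [ZMod.natCast_eq_natCast_iff] at h1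
        have h2 : c % M = (c0 + lam * m) % M := h1
        rwa [Nat.mod_eq_of_lt hcM] at h2
      · intro h
        have h1 : (c : ZMod M) = ((c0 + lam * m : ℕ) : ZMod M) := by
          rw [ZMod.natCast_eq_natCast_iff]
          show c % M = (c0 + lam * m) % M
          rw [Nat.mod_eq_of_lt hcM]; exact h
        push_cast at h1
        rw [h1]
        linear_combination (-(m : ZMod M)) * hmu
    by_cases h : (c0 + lam * m) % M ∈ C
    · rw [if_pos h]
      rw [Finset.sum_eq_single_of_mem ((c0 + lam * m) % M) h]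
      · rw [if_pos ((key _ h).mpr rfl)]; simp
      · intro b hb hne
        rw [if_neg]
        intro h2; exact hne ((key b hb).mp h2)
    · rw [if_neg h]
      rw [Finset.sum_eq_zero]
      · simp
      · intro b hb
        rw [if_neg]
        intro h2
        exact h ((key b hb).mp h2 ▸ hb)
  have h1 : (((M : ℝ) * (((Finset.range R).filter
        (fun m => (c0 + lam * m) % M ∈ C)).card : ℝ) : ℝ) : ℂ)
      = ∑ y : ZMod M, (ZMod.stdAddChar (y * (mu * (c0 : ZMod M))) : ℂ) *
          (G M R y * F M C (-(y * mu))) := by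
    have e0 : ((((Finset.range R).filter (fun m => (c0 + lam * m) % M ∈ C)).card : ℕ) : ℂ)
        = ∑ m ∈ Finset.range R, ((if (c0 + lam * m) % M ∈ C then 1 else 0 : ℕ) : ℂ) := by
      rw [Finset.card_filter, Nat.cast_sum]
    have e2 : ∀ m c : ℕ, (M : ℂ) *
        (if ((m : ZMod M) - mu * ((c : ZMod M) - (c0 : ZMod M))) = 0 then 1 else 0)
        = ∑ y : ZMod M, (ZMod.stdAddChar (y * ((m : ZMod M)
            - mu * ((c : ZMod M) - (c0 : ZMod M)))) : ℂ) := by
      intro m c
      rw [orth]; split_ifs <;> simp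
    rw [Complex.ofReal_mul, Complex.ofReal_natCast, Complex.ofReal_natCast, e0, Finset.mul_sum]
    have e3 : ∑ m ∈ Finset.range R, (M : ℂ) * ((if (c0 + lam * m) % M ∈ C then 1 else 0 : ℕ) : ℂ)
        = ∑ y : ZMod M, ∑ m ∈ Finset.range R, ∑ c ∈ C, (ZMod.stdAddChar (y * ((m : ZMod M)
            - mu * ((c : ZMod M) - (c0 : ZMod M)))) : ℂ) := by
      have e4 : ∀ m ∈ Finset.range R,
          (M : ℂ) * ((if (c0 + lam * m) % M ∈ C then 1 else 0 : ℕ) : ℂ)
          = ∑ y : ZMod M, ∑ c ∈ C, (ZMod.stdAddChar (y * ((m : ZMod M)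
            - mu * ((c : ZMod M) - (c0 : ZMod M)))) : ℂ) := by
        intro m _
        rw [hcnt m, Finset.mul_sum, Finset.sum_congr rfl (fun c _ => e2 m c), Finset.sum_comm]
      rw [Finset.sum_congr rfl e4, Finset.sum_comm]
    rw [e3]
    apply Finset.sum_congr rfl; intro y _
    rw [G, F, Finset.sum_mul_sum, Finset.mul_sum]
    apply Finset.sum_congr rfl; intro m _
    rw [Finset.mul_sum]
    apply Finset.sum_congr rfl; intro c _
    rw [← AddChar.map_add_eq_mul, ← AddChar.map_add_eq_mul]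
    congr 1; ring
  have hnn : (0 : ℝ) ≤ (M : ℝ) * (((Finset.range R).filter
        (fun m => (c0 + lam * m) % M ∈ C)).card : ℝ) := by positivity
  calc (M : ℝ) * (((Finset.range R).filter (fun m => (c0 + lam * m) % M ∈ C)).card : ℝ)
      = ‖(((M : ℝ) * (((Finset.range R).filter
        (fun m => (c0 + lam * m) % M ∈ C)).card : ℝ) : ℝ) : ℂ)‖ := by
        rw [Complex.norm_real, Real.norm_of_nonneg hnn]
    _ ≤ _ := by
        rw [h1]
        refine le_trans (norm_sum_le _ _) ?_
        apply Finset.sum_le_sum; intro y _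
        rw [norm_mul, norm_mul, norm_char, one_mul]

end Pool.Agent.W288.NK
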