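import Mathlib

/-! Digit sets in base `q`: integers whose lowest `k` base-`q` digits all lie in `D`. -/

namespace Pool.Agent.W288.NK

/-- All of the lowest `k` base-`q` digits of `c` lie in `D`. -/
def good (q : ℕ) (D : Finset ℕ) (k c : ℕ) : Prop := ∀ i < k, c / q ^ i % q ∈ D

instance (q : ℕ) (D : Finset ℕ) (k c : ℕ) : Decidable (good q D k c) := by
  unfold good; infer_instance

theorem digit_mod (q k c i : ℕ) (hi : i < k) : c % q ^ k / q ^ i % q = c / q ^ i % q := by
  have h1 : q ^ k = q ^ i * q ^ (k - i) := by rw [← pow_add]; congr 1; omega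
  rw [h1, Nat.mod_mul_right_div_self]
  exact Nat.mod_mod_of_dvd _ (dvd_pow_self q (by omega))

theorem good_mod (q : ℕ) (D : Finset ℕ) (k c : ℕ) :
    good q D k (c % q ^ k) ↔ good q D k c := by
  constructor
  · intro h i hi; rw [← digit_mod q k c i hi]; exact h i hi
  · intro h i hi; rw [digit_mod q k c i hi]; exact h i hi

theorem good_congr (q : ℕ) (D : Finset ℕ) (k : ℕ) {a b : ℕ} (h : a % q ^ k = b % q ^ k) :
    good q D k a ↔ good q D k b := by
  rw [← good_mod q D k a, h, good_mod]

theorem good_low (q : ℕ) (D : Finset ℕ) (k l c : ℕ) (h : good q D (k + l) c) :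
    good q D k c := fun i hi => h i (by omega)

theorem good_high (q : ℕ) (D : Finset ℕ) (k l c : ℕ) (h : good q D (k + l) c) :
    good q D l (c / q ^ k) := by
  intro i hi
  have := h (k + i) (by omega)
  rwa [pow_add, ← Nat.div_div_eq_div_mul] at this

/-- The set of residues `c < q^k` with all `k` digits in `D`. -/
def CS (q : ℕ) (D : Finset ℕ) (k : ℕ) : Finset ℕ := (Finset.range (q ^ k)).filter (good q D k)

theorem mem_CS (q : ℕ) (D : Finset ℕ) (k c : ℕ) :
    c ∈ CS q D k ↔ c < q ^ k ∧ good q D k c := by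
  simp [CS]

theorem card_CS (q : ℕ) (hq : 0 < q) (D : Finset ℕ) (k : ℕ) :
    (CS q D k).card ≤ D.card ^ k := by
  induction k with
  | zero =>
    refine le_trans (Finset.card_filter_le _ _) ?_
    simp
  | succ k ih =>
    have : (CS q D (k + 1)).card ≤ (CS q D k ×ˢ D).card := by
      apply Finset.card_le_card_of_injOn (fun c => (c / q, c % q))
      · intro c hc
        have hc' : c ∈ CS q D (k + 1) := hc
        rw [mem_CS] at hc'
        obtain ⟨h1, h2⟩ := hc'
        rw [Finset.mem_coe, Finset.mem_product]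
        refine ⟨?_, ?_⟩
        · rw [mem_CS]
          refine ⟨?_, ?_⟩
          · simp only
            rw [Nat.div_lt_iff_lt_mul hq]
            rwa [pow_succ] at h1
          · have h3 : good q D (1 + k) c := by rwa [add_comm]
            have := good_high q D 1 k c h3
            simpa using this
        · have := h2 0 (by omega)
          simpa using this
      · intro a _ b _ hab
        simp only [Prod.mk.injEq] at hab
        rw [← Nat.div_add_mod a q, ← Nat.div_add_mod b q, hab.1, hab.2]
    calc (CS q D (k + 1)).card ≤ (CS q D k ×ˢ D).card := this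
      _ = (CS q D k).card * D.card := Finset.card_product _ _
      _ ≤ D.card ^ k * D.card := Nat.mul_le_mul_right _ ih
      _ = D.card ^ (k + 1) := (pow_succ _ _).symm

theorem card_fiber (q : ℕ) (hq : 0 < q) (D : Finset ℕ) (j i : ℕ) (r : ℕ) :
    ((CS q D (j + i)).filter (fun c => c % q ^ j = r)).card ≤ D.card ^ i := by
  refine le_trans ?_ (card_CS q hq D i)
  apply Finset.card_le_card_of_injOn (fun c => c / q ^ j)
  · intro c hc
    have hc' := Finset.mem_filter.mp (Finset.mem_coe.mp hc)
    obtain ⟨h1, h2⟩ := hc'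
    rw [mem_CS] at h1
    rw [Finset.mem_coe, mem_CS]
    refine ⟨?_, good_high q D j i c h1.2⟩
    simp only
    rw [Nat.div_lt_iff_lt_mul (pow_pos hq _), mul_comm, ← pow_add]
    exact h1.1
  · intro a ha b hb hab
    have ha' := (Finset.mem_filter.mp (Finset.mem_coe.mp ha)).2
    have hb' := (Finset.mem_filter.mp (Finset.mem_coe.mp hb)).2
    simp only at hab
    rw [← Nat.div_add_mod a (q ^ j), ← Nat.div_add_mod b (q ^ j), hab, ha', hb']

/-- Truncated binomial expansion. -/
theorem one_add_pow (a m : ℕ) : ∃ z : ℕ, (1 + a) ^ m = 1 + a * m + a ^ 2 * z := by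
  induction m with
  | zero => exact ⟨0, by simp⟩
  | succ m ih =>
    obtain ⟨z, hz⟩ := ih
    refine ⟨m + z + a * z, ?_⟩
    rw [pow_succ, hz]; ring

/-- The two blocks of digits of `X (1 + q^k w)^m`. -/
theorem good_split (q : ℕ) (hq : 0 < q) (D : Finset ℕ) (k X w m : ℕ)
    (h : good q D (k + k) (X * (1 + q ^ k * w) ^ m)) :
    X % q ^ k ∈ CS q D k ∧ (X / q ^ k + X * w * m) % q ^ k ∈ CS q D k := by
  have hQ : 0 < q ^ k := pow_pos hq _
  obtain ⟨z, hz⟩ := one_add_pow (q ^ k * w) m
  have e1 : X * (1 + q ^ k * w) ^ m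
      = X % q ^ k + q ^ k * ((X / q ^ k + X * w * m) + q ^ k * (X * w ^ 2 * z)) := by
    have hx0 := Nat.mod_add_div X (q ^ k)
    calc X * (1 + q ^ k * w) ^ m = X + q ^ k * (X * w * m + q ^ k * (X * w ^ 2 * z)) := by
          rw [hz]; ring
      _ = (X % q ^ k + q ^ k * (X / q ^ k)) + q ^ k * (X * w * m + q ^ k * (X * w ^ 2 * z)) := by
          rw [hx0]
      _ = _ := by ring
  have hlow := good_low q D k k _ h
  have hhigh := good_high q D k k _ h
  have hx : X % q ^ k < q ^ k := Nat.mod_lt _ hQ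
  constructor
  · rw [mem_CS]
    refine ⟨hx, ?_⟩
    rw [good_mod]
    rw [e1] at hlow
    refine (good_congr q D k ?_).mp hlow
    rw [Nat.add_mul_mod_self_left, Nat.mod_mod]
  · rw [mem_CS]
    refine ⟨Nat.mod_lt _ hQ, ?_⟩
    rw [good_mod]
    rw [e1, Nat.add_mul_div_left _ _ hQ, Nat.div_eq_of_lt hx, zero_add] at hhigh
    refine (good_congr q D k ?_).mp hhigh
    rw [Nat.add_mul_mod_self_left]

end Pool.Agent.W288.NK
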