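import Mathlib
import Pool.Agent.W288.NK.Digits
import Pool.Agent.W288.NK.Char

/-! Bounds for the geometric sum and for the averaged exponential sums. -/

namespace Pool.Agent.W288.NK

open Complex

theorem geom_bound (M : ℕ) [NeZero M] (R : ℕ) (y : ℕ) (hy0 : 0 < y) (hy : y < M) :
    ‖G M R (y : ZMod M)‖ ≤ (M : ℝ) * (1 / (2 * (y : ℝ)) + 1 / (2 * ((M : ℝ) - y))) := by
  have hM : 0 < M := lt_trans hy0 hy
  have hMr : (0 : ℝ) < M := by exact_mod_cast hM
  have hyr : (0 : ℝ) < y := by exact_mod_cast hy0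
  have hyM : (y : ℝ) < M := by exact_mod_cast hy
  set ζ : ℂ := (ZMod.stdAddChar (y : ZMod M) : ℂ) with hζ
  have hG : G M R (y : ZMod M) = ∑ m ∈ Finset.range R, ζ ^ m := by
    rw [G]
    apply Finset.sum_congr rfl; intro m _
    rw [hζ, ← AddChar.map_nsmul_eq_pow, nsmul_eq_mul, mul_comm]
  have hζe : ζ = Complex.exp (Complex.I * ((2 * Real.pi * y / M : ℝ) : ℂ)) := by
    rw [hζ]
    have := ZMod.stdAddChar_coe (N := M) (y : ℤ)
    push_cast at this
    rw [this]
    congr 1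
    push_cast
    ring
  have hsub : ‖ζ - 1‖ = 2 * Real.sin (Real.pi * y / M) := by
    rw [hζe, Complex.norm_exp_I_mul_ofReal_sub_one]
    have : (2 * Real.pi * y / M : ℝ) / 2 = Real.pi * y / M := by ring
    rw [this, Real.norm_of_nonneg]
    apply mul_nonneg (by norm_num)
    apply Real.sin_nonneg_of_nonneg_of_le_pi
    · positivity
    · rw [div_le_iff₀ hMr]
      exact mul_le_mul_of_nonneg_left hyM.le Real.pi_pos.le
  have hpi := Real.pi_pos
  have hmy : (0 : ℝ) < (M : ℝ) - y := by linarith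
  have hsin : ∃ t : ℝ, 0 < t ∧ 4 * t / M ≤ ‖ζ - 1‖ ∧ 1 / (2 * t) ≤
      (1 / (2 * (y : ℝ)) + 1 / (2 * ((M : ℝ) - y))) := by
    rw [hsub]
    by_cases h : 2 * (y : ℝ) ≤ M
    · refine ⟨y, hyr, ?_, ?_⟩
      · have := Real.mul_le_sin (x := Real.pi * y / M) (by positivity) (by
          rw [div_le_div_iff₀ hMr (by norm_num)]
          nlinarith)
        have e : 2 / Real.pi * (Real.pi * y / M) = 2 * y / M := by field_simp
        rw [e] at this
        calc 4 * (y : ℝ) / M = 2 * (2 * y / M) := by ring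
          _ ≤ _ := by linarith
      · have : (0 : ℝ) ≤ 1 / (2 * ((M : ℝ) - y)) := by positivity
        linarith
    · refine ⟨(M : ℝ) - y, hmy, ?_, ?_⟩
      · have hs : Real.sin (Real.pi * y / M) = Real.sin (Real.pi * ((M : ℝ) - y) / M) := by
          rw [← Real.sin_pi_sub]
          congr 1
          field_simp
        rw [hs]
        have := Real.mul_le_sin (x := Real.pi * ((M : ℝ) - y) / M) (by positivity) (by
          rw [div_le_div_iff₀ hMr (by norm_num)]
          push Not at h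
          nlinarith)
        have e : 2 / Real.pi * (Real.pi * ((M : ℝ) - y) / M) = 2 * ((M : ℝ) - y) / M := by
          field_simp
        rw [e] at this
        calc 4 * ((M : ℝ) - y) / M = 2 * (2 * ((M : ℝ) - y) / M) := by ring
          _ ≤ _ := by linarith
      · have : (0 : ℝ) ≤ 1 / (2 * (y : ℝ)) := by positivity
        linarith
  obtain ⟨t, ht, h1, h2⟩ := hsin
  have hne : ζ ≠ 1 := by
    intro h
    rw [h, sub_self, norm_zero] at h1
    have : 0 < 4 * t / M := by positivity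
    linarith
  have hzpos : 0 < ‖ζ - 1‖ := norm_pos_iff.mpr (sub_ne_zero.mpr hne)
  have hζn : ‖ζ‖ = 1 := norm_char M _
  rw [hG, geom_sum_eq hne, norm_div]
  have hnum : ‖ζ ^ R - 1‖ ≤ 2 := by
    calc ‖ζ ^ R - 1‖ ≤ ‖ζ ^ R‖ + ‖(1 : ℂ)‖ := norm_sub_le _ _
      _ = 2 := by rw [norm_pow, hζn, one_pow, norm_one]; norm_num
  calc ‖ζ ^ R - 1‖ / ‖ζ - 1‖ ≤ 2 / ‖ζ - 1‖ := by gcongr
    _ ≤ 2 / (4 * t / M) := by
        apply div_le_div_of_nonneg_left (by norm_num) (by positivity) h1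
    _ = M * (1 / (2 * t)) := by field_simp; norm_num
    _ ≤ _ := mul_le_mul_of_nonneg_left h2 hMr.le

theorem F_scale (q : ℕ) [NeZero q] (j i : ℕ) (C : Finset ℕ) (a : ℤ) :
    F (q ^ (j + i)) C (((q : ℤ) ^ i * a : ℤ) : ZMod (q ^ (j + i)))
      = F (q ^ j) C ((a : ℤ) : ZMod (q ^ j)) := by
  have hq : (q : ℂ) ≠ 0 := by exact_mod_cast NeZero.ne q
  rw [F, F]
  apply Finset.sum_congr rfl; intro c _
  have e1 : (((q : ℤ) ^ i * a : ℤ) : ZMod (q ^ (j + i))) * (c : ZMod (q ^ (j + i)))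
      = (((q : ℤ) ^ i * a * c : ℤ) : ZMod (q ^ (j + i))) := by push_cast; ring
  have e2 : ((a : ℤ) : ZMod (q ^ j)) * (c : ZMod (q ^ j))
      = ((a * c : ℤ) : ZMod (q ^ j)) := by push_cast; ring
  rw [e1, e2, ZMod.stdAddChar_coe, ZMod.stdAddChar_coe]
  congr 1
  push_cast
  rw [pow_add]
  field_simp

/-- Mean square over a set of indices with bounded multiplicity. -/
theorem sum_sq_mult (M : ℕ) [NeZero M] (C : Finset ℕ) (b1 b2 : ℕ)
    (hb : ∀ r : ℕ, (C.filter (fun c => c % M = r)).card ≤ b1) (S : Finset ℕ) (z : ℕ → ZMod M)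
    (hz : ∀ ζ : ZMod M, (S.filter (fun s => z s = ζ)).card ≤ b2) :
    ∑ s ∈ S, ‖F M C (z s)‖ ^ 2 ≤ (b2 : ℝ) * ((M : ℝ) * (C.card * b1)) := by
  calc ∑ s ∈ S, ‖F M C (z s)‖ ^ 2
      = ∑ ζ : ZMod M, ∑ s ∈ S.filter (fun s => z s = ζ), ‖F M C (z s)‖ ^ 2 :=
        (Finset.sum_fiberwise S z _).symm
    _ ≤ ∑ ζ : ZMod M, (b2 : ℝ) * ‖F M C ζ‖ ^ 2 := by
        apply Finset.sum_le_sum; intro ζ _
        rw [Finset.sum_congr rfl (g := fun _ => ‖F M C ζ‖ ^ 2) (fun s hs => by
          rw [(Finset.mem_filter.mp hs).2]), Finset.sum_const, nsmul_eq_mul]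
        apply mul_le_mul_of_nonneg_right _ (by positivity)
        exact_mod_cast hz ζ
    _ = (b2 : ℝ) * ∑ ζ : ZMod M, ‖F M C ζ‖ ^ 2 := by rw [Finset.mul_sum]
    _ ≤ _ := mul_le_mul_of_nonneg_left (parseval M C b1 hb) (Nat.cast_nonneg _)

/-- The averaged exponential sum over the good residues. -/
theorem sumF_bound (q : ℕ) [NeZero q] (D : Finset ℕ) (j i : ℕ) (n' w : ℕ)
    (hn' : Nat.Coprime n' q) (hw : Nat.Coprime w q) (S : Finset ℕ) (X : ℕ → ℕ)
    (hX : ∀ s ∈ S, X s % q ^ (j + i) ∈ CS q D (j + i))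
    (hinj : ∀ s ∈ S, ∀ s' ∈ S, X s % q ^ (j + i) = X s' % q ^ (j + i) → s = s')
    (mu : ℕ → ℕ) (hmu : ∀ s ∈ S, ((mu s * (X s * w) : ℕ) : ZMod (q ^ (j + i))) = 1) :
    (∑ s ∈ S, ‖F (q ^ (j + i)) (CS q D (j + i))
        (-(((q ^ i * n' : ℕ) : ZMod (q ^ (j + i))) * ((mu s : ℕ) : ZMod (q ^ (j + i)))))‖) ^ 2
      ≤ (D.card : ℝ) ^ (j + i) * ((D.card : ℝ) ^ i *
        ((q : ℝ) ^ j * ((D.card : ℝ) ^ (j + i) * (D.card : ℝ) ^ i))) := by
  have hq : 0 < q := Nat.pos_of_ne_zero (NeZero.ne q)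
  set C := CS q D (j + i) with hC
  have hcardC : (C.card : ℝ) ≤ (D.card : ℝ) ^ (j + i) := by
    exact_mod_cast card_CS q hq D (j + i)
  -- |S| ≤ |C|
  have hcardS : (S.card : ℝ) ≤ (D.card : ℝ) ^ (j + i) := by
    refine le_trans ?_ hcardC
    have : S.card ≤ C.card := by
      apply Finset.card_le_card_of_injOn (fun s => X s % q ^ (j + i))
      · intro s hs; exact hX s hs
      · intro a ha b hb hab; exact hinj a ha b hb hab
    exact_mod_cast this
  let z : ℕ → ZMod (q ^ j) := fun s => ((-((n' : ℤ) * (mu s : ℤ)) : ℤ) : ZMod (q ^ j))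
  have hFz : ∀ s, F (q ^ (j + i)) C
      (-(((q ^ i * n' : ℕ) : ZMod (q ^ (j + i))) * ((mu s : ℕ) : ZMod (q ^ (j + i)))))
      = F (q ^ j) C (z s) := by
    intro s
    rw [← F_scale q j i C]
    congr 1
    push_cast
    ring
  simp_rw [hFz]
  have hdvd : q ^ j ∣ q ^ (j + i) := pow_dvd_pow q (by omega)
  have hz : ∀ ζ : ZMod (q ^ j), (S.filter (fun s => z s = ζ)).card ≤ D.card ^ i := by
    intro ζ
    by_cases hne : (S.filter (fun s => z s = ζ)).Nonempty
    · obtain ⟨s0, hs0⟩ := hne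
      have hs0' := Finset.mem_filter.mp hs0
      refine le_trans ?_ (card_fiber q hq D j i (X s0 % q ^ j))
      apply Finset.card_le_card_of_injOn (fun s => X s % q ^ (j + i))
      · intro s hs
        have hs' := Finset.mem_filter.mp (Finset.mem_coe.mp hs)
        rw [Finset.mem_coe, Finset.mem_filter]
        refine ⟨hX s hs'.1, ?_⟩
        simp only
        rw [Nat.mod_mod_of_dvd _ hdvd]
        -- z s = z s0
        have hzz : z s = z s0 := by rw [hs'.2, hs0'.2]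
        have hm : ∀ s ∈ S, ((mu s : ℕ) : ZMod (q ^ j)) * ((X s : ZMod (q ^ j)) * w) = 1 := by
          intro s hs
          have h1 := hmu s hs
          have h2 : ((mu s * (X s * w) : ℕ) : ZMod (q ^ (j + i))) = ((1 : ℕ) : ZMod _) := by
            rw [h1]; simp
          rw [ZMod.natCast_eq_natCast_iff] at h2
          have h3 : (mu s * (X s * w)) ≡ 1 [MOD q ^ j] := Nat.ModEq.of_dvd hdvd h2
          have h4 := (ZMod.natCast_eq_natCast_iff _ _ (q ^ j)).mpr h3
          push_cast at h4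
          exact h4
        have hn'u : IsUnit (n' : ZMod (q ^ j)) := by
          rw [ZMod.isUnit_iff_coprime]; exact Nat.Coprime.pow_right j hn'
        have hwu : IsUnit (w : ZMod (q ^ j)) := by
          rw [ZMod.isUnit_iff_coprime]; exact Nat.Coprime.pow_right j hw
        have h5 : (n' : ZMod (q ^ j)) * (mu s : ZMod (q ^ j))
            = (n' : ZMod (q ^ j)) * (mu s0 : ZMod (q ^ j)) := by
          have h6 : ((-((n' : ℤ) * (mu s : ℤ)) : ℤ) : ZMod (q ^ j))
            = ((-((n' : ℤ) * (mu s0 : ℤ)) : ℤ) : ZMod (q ^ j)) := hzz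
          push_cast at h6
          exact neg_injective h6
        have h7 : (mu s : ZMod (q ^ j)) = (mu s0 : ZMod (q ^ j)) := hn'u.mul_left_cancel h5
        have h8 := hm s hs'.1
        have h9 := hm s0 hs0'.1
        have h10 : (X s : ZMod (q ^ j)) * w = (X s0 : ZMod (q ^ j)) * w := by
          rw [h7] at h8
          have : (mu s0 : ZMod (q ^ j)) * ((X s : ZMod (q ^ j)) * w)
            = (mu s0 : ZMod (q ^ j)) * ((X s0 : ZMod (q ^ j)) * w) := by rw [h8, h9]
          have hu : IsUnit (mu s0 : ZMod (q ^ j)) := IsUnit.of_mul_eq_one _ h9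
          exact hu.mul_left_cancel this
        have h11 : (X s : ZMod (q ^ j)) = (X s0 : ZMod (q ^ j)) := hwu.mul_right_cancel h10
        rw [ZMod.natCast_eq_natCast_iff] at h11
        exact h11
      · intro a ha b hb hab
        have ha' := Finset.mem_filter.mp (Finset.mem_coe.mp ha)
        have hb' := Finset.mem_filter.mp (Finset.mem_coe.mp hb)
        exact hinj a ha'.1 b hb'.1 hab
    · rw [Finset.not_nonempty_iff_eq_empty] at hne
      rw [hne]; simp
  have hms := sum_sq_mult (q ^ j) C (D.card ^ i) (D.card ^ i)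
    (fun r => card_fiber q hq D j i r) S z hz
  calc (∑ s ∈ S, ‖F (q ^ j) C (z s)‖) ^ 2
      ≤ (S.card : ℝ) * ∑ s ∈ S, ‖F (q ^ j) C (z s)‖ ^ 2 := sq_sum_le_card_mul_sum_sq
    _ ≤ (D.card : ℝ) ^ (j + i) * ∑ s ∈ S, ‖F (q ^ j) C (z s)‖ ^ 2 := by
        apply mul_le_mul_of_nonneg_right hcardS
        apply Finset.sum_nonneg; intro s _; positivity
    _ ≤ (D.card : ℝ) ^ (j + i) * (((D.card ^ i : ℕ) : ℝ) *
          (((q ^ j : ℕ) : ℝ) * (C.card * ((D.card ^ i : ℕ) : ℝ)))) := by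
        apply mul_le_mul_of_nonneg_left hms; positivity
    _ ≤ _ := by
        push_cast
        gcongr

end Pool.Agent.W288.NK
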