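import Mathlib
import Pool.Agent.W288.NK.Digits
import Pool.Agent.W288.NK.Char
import Pool.Agent.W288.NK.Bound

/-! Energy bound: frequencies `1 ≤ n < q^h` times inverses of missing-digit residues. -/

namespace Pool.Agent.W288.NK

open Complex

theorem sum_sq_mult' {ι : Type*} [DecidableEq ι] (M : ℕ) [NeZero M] (C : Finset ℕ) (b1 b2 : ℕ)
    (hb : ∀ r : ℕ, (C.filter (fun c => c % M = r)).card ≤ b1) (S : Finset ι) (z : ι → ZMod M)
    (hz : ∀ ζ : ZMod M, (S.filter (fun s => z s = ζ)).card ≤ b2) :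
    ∑ s ∈ S, ‖F M C (z s)‖ ^ 2 ≤ (b2 : ℝ) * ((M : ℝ) * (C.card * b1)) := by
  calc ∑ s ∈ S, ‖F M C (z s)‖ ^ 2
      = ∑ ζ : ZMod M, ∑ s ∈ S.filter (fun s => z s = ζ), ‖F M C (z s)‖ ^ 2 :=
        (Finset.sum_fiberwise S z _).symm
    _ ≤ ∑ ζ : ZMod M, (b2 : ℝ) * ‖F M C ζ‖ ^ 2 := by
        apply Finset.sum_le_sum; intro ζ _
        rw [Finset.sum_congr rfl (g := fun _ => ‖F M C ζ‖ ^ 2) (fun s hs => by
          rw [(Finset.mem_filter.mp hs).2]), Finset.sum_const, nsmul_eq_mul]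
        apply mul_le_mul_of_nonneg_right _ (by positivity)
        exact_mod_cast hz ζ
    _ = (b2 : ℝ) * ∑ ζ : ZMod M, ‖F M C ζ‖ ^ 2 := by rw [Finset.mul_sum]
    _ ≤ _ := mul_le_mul_of_nonneg_left (parseval M C b1 hb) (Nat.cast_nonneg _)

/-- Multiplicity of the products `n / X s`. -/
theorem mult_bound (q : ℕ) (hqp : q.Prime) (D : Finset ℕ) (k h : ℕ) (hh : h ≤ k)
    (S : Finset ℕ) (X : ℕ → ℕ)
    (hX : ∀ s ∈ S, X s % q ^ k ∈ CS q D k)
    (hXc : ∀ s, Nat.Coprime (X s) q)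
    (hinj : ∀ s ∈ S, ∀ s' ∈ S, X s % q ^ k = X s' % q ^ k → s = s')
    (P : Finset (ℕ × ℕ)) (hP : ∀ a ∈ P, (1 ≤ a.1 ∧ a.1 < q ^ h) ∧ a.2 ∈ S)
    (hrel : ∀ a ∈ P, ∀ b ∈ P, a.1 * X b.2 ≡ b.1 * X a.2 [MOD q ^ k]) :
    P.card ≤ D.card ^ h := by
  have hq : 0 < q := hqp.pos
  rcases Finset.eq_empty_or_nonempty P with h0 | ⟨⟨n0, s0⟩, h0⟩
  · rw [h0]; simp
  obtain ⟨⟨hn1, hn2⟩, hs0⟩ := hP _ h0
  simp only at hn1 hn2 hs0
  obtain ⟨i, n0', hn0', hnn⟩ := Nat.exists_eq_pow_mul_and_not_dvd (n := n0) (by omega) q hqp.ne_one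
  have hn0'0 : 0 < n0' := by
    rcases Nat.eq_zero_or_pos n0' with h | h
    · rw [h] at hn0'; simp at hn0'
    · exact h
  have hih : i < h := by
    by_contra hc
    push Not at hc
    have h1 : q ^ h ≤ q ^ i := Nat.pow_le_pow_right hq hc
    have h2 : q ^ i ≤ n0 := by rw [hnn]; exact Nat.le_mul_of_pos_right _ hn0'0
    omega
  have hn0'c : Nat.Coprime n0' q := Nat.Coprime.symm ((Nat.Prime.coprime_iff_not_dvd hqp).mpr hn0')
  -- every first coordinate is divisible by q^i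
  have hk : q ^ k = q ^ i * q ^ (k - i) := by rw [← pow_add]; congr 1; omega
  have hdiv : ∀ a ∈ P, ∃ n', a.1 = q ^ i * n' ∧
      n' * X s0 ≡ n0' * X a.2 [MOD q ^ (k - i)] := by
    intro a ha
    have h1 := hrel a ha (n0, s0) h0
    simp only at h1
    have h2 : q ^ i ∣ a.1 * X s0 := by
      have h3 : a.1 * X s0 ≡ n0 * X a.2 [MOD q ^ i] :=
        Nat.ModEq.of_dvd (by rw [hk]; exact Dvd.intro _ rfl) h1
      have h4 : n0 * X a.2 ≡ 0 [MOD q ^ i] := by
        rw [Nat.modEq_zero_iff_dvd, hnn, mul_assoc]; exact Dvd.intro _ rfl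
      exact (Nat.modEq_zero_iff_dvd).mp (h3.trans h4)
    have h3 : q ^ i ∣ a.1 :=
      Nat.Coprime.dvd_of_dvd_mul_right (Nat.Coprime.symm (Nat.Coprime.pow_right i (hXc s0))) h2
    obtain ⟨n', hn'⟩ := h3
    refine ⟨n', hn', ?_⟩
    rw [hn', hnn, hk, mul_assoc, mul_assoc] at h1
    exact Nat.ModEq.mul_left_cancel' (pow_pos hq i).ne' h1
  have hcard : P.card ≤ (CS q D (h - i) ×ˢ CS q D i).card := by
    apply Finset.card_le_card_of_injOn
      (fun a => ((X a.2 % q ^ k) % q ^ (h - i), (X a.2 % q ^ k) / q ^ (k - i)))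
    · intro a ha
      have hx := hX _ (hP a ha).2
      rw [mem_CS] at hx
      rw [Finset.mem_coe, Finset.mem_product]
      refine ⟨?_, ?_⟩
      · rw [mem_CS]
        refine ⟨Nat.mod_lt _ (pow_pos hq _), ?_⟩
        rw [good_mod]
        intro j hj
        exact hx.2 j (by omega)
      · rw [mem_CS]
        refine ⟨?_, ?_⟩
        · show (X a.2 % q ^ k) / q ^ (k - i) < q ^ i
          rw [Nat.div_lt_iff_lt_mul (pow_pos hq _), ← hk]
          exact hx.1
        · apply good_high q D (k - i) i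
          rw [show k - i + i = k by omega]
          exact hx.2
    · intro a ha b hb hab
      simp only [Prod.mk.injEq] at hab
      obtain ⟨n', hn', hna⟩ := hdiv a ha
      obtain ⟨m', hm', hmb⟩ := hdiv b hb
      have hdv : q ^ (h - i) ∣ q ^ (k - i) := pow_dvd_pow q (by omega)
      have hdv2 : q ^ (h - i) ∣ q ^ k := pow_dvd_pow q (by omega)
      have hdv3 : q ^ (k - i) ∣ q ^ k := pow_dvd_pow q (by omega)
      -- X a.2 ≡ X b.2 mod q^(h-i)
      have e1 : X a.2 ≡ X b.2 [MOD q ^ (h - i)] := by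
        have := hab.1
        rw [Nat.mod_mod_of_dvd _ hdv2, Nat.mod_mod_of_dvd _ hdv2] at this
        exact this
      have e2 : n' * X s0 ≡ m' * X s0 [MOD q ^ (h - i)] := by
        calc n' * X s0 ≡ n0' * X a.2 [MOD q ^ (h - i)] := Nat.ModEq.of_dvd hdv hna
          _ ≡ n0' * X b.2 [MOD q ^ (h - i)] := Nat.ModEq.mul_left _ e1
          _ ≡ m' * X s0 [MOD q ^ (h - i)] := (Nat.ModEq.of_dvd hdv hmb).symm
      have e3 : n' ≡ m' [MOD q ^ (h - i)] :=
        Nat.ModEq.cancel_right_of_coprime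
          (Nat.Coprime.symm (Nat.Coprime.pow_right _ (hXc s0))) e2
      have hlt : ∀ (x : ℕ) (y : ℕ), y = q ^ i * x → y < q ^ h → x < q ^ (h - i) := by
        intro x y hxy hy
        have : q ^ h = q ^ i * q ^ (h - i) := by rw [← pow_add]; congr 1; omega
        rw [hxy, this] at hy
        exact lt_of_mul_lt_mul_left hy (Nat.zero_le _)
      have e4 : n' = m' := by
        have h1 := hlt n' a.1 hn' (hP a ha).1.2
        have h2 := hlt m' b.1 hm' (hP b hb).1.2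
        have h3 : n' % q ^ (h - i) = m' % q ^ (h - i) := e3
        rwa [Nat.mod_eq_of_lt h1, Nat.mod_eq_of_lt h2] at h3
      have e5 : n0' * X a.2 ≡ n0' * X b.2 [MOD q ^ (k - i)] := by
        calc n0' * X a.2 ≡ n' * X s0 [MOD q ^ (k - i)] := hna.symm
          _ = m' * X s0 := by rw [e4]
          _ ≡ n0' * X b.2 [MOD q ^ (k - i)] := hmb
      have e6 : X a.2 ≡ X b.2 [MOD q ^ (k - i)] :=
        Nat.ModEq.cancel_left_of_coprime
          (Nat.Coprime.symm (Nat.Coprime.pow_right _ hn0'c)) e5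
      have e7 : X a.2 % q ^ k = X b.2 % q ^ k := by
        rw [← Nat.div_add_mod (X a.2 % q ^ k) (q ^ (k - i)),
          ← Nat.div_add_mod (X b.2 % q ^ k) (q ^ (k - i)), hab.2,
          Nat.mod_mod_of_dvd _ hdv3, Nat.mod_mod_of_dvd _ hdv3]
        have : X a.2 % q ^ (k - i) = X b.2 % q ^ (k - i) := e6
        rw [this]
      have e8 : a.2 = b.2 := hinj _ (hP a ha).2 _ (hP b hb).2 e7
      have e9 : a.1 = b.1 := by rw [hn', hm', e4]
      exact Prod.ext e9 e8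
  calc P.card ≤ (CS q D (h - i) ×ˢ CS q D i).card := hcard
    _ = (CS q D (h - i)).card * (CS q D i).card := Finset.card_product _ _
    _ ≤ D.card ^ (h - i) * D.card ^ i :=
        Nat.mul_le_mul (card_CS q hq D _) (card_CS q hq D _)
    _ = D.card ^ h := by rw [← pow_add]; congr 1; omega

/-- The sum over frequencies below `q^h`. -/
theorem P_bound (q : ℕ) [NeZero q] (hqp : q.Prime) (D : Finset ℕ) (k h w : ℕ) (hh : h ≤ k)
    (hw : Nat.Coprime w q) (S : Finset ℕ) (X : ℕ → ℕ)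
    (hX : ∀ s ∈ S, X s % q ^ k ∈ CS q D k)
    (hXc : ∀ s, Nat.Coprime (X s) q)
    (hinj : ∀ s ∈ S, ∀ s' ∈ S, X s % q ^ k = X s' % q ^ k → s = s')
    (mu : ℕ → ℕ) (hmu : ∀ s, ((mu s * (X s * w) : ℕ) : ZMod (q ^ k)) = 1) :
    ∑ n ∈ Finset.Ico 1 (q ^ h), ∑ s ∈ S,
      ‖F (q ^ k) (CS q D k) (-((n : ZMod (q ^ k)) * ((mu s : ℕ) : ZMod (q ^ k))))‖
      ≤ ((D.card : ℝ) ^ k * Real.sqrt q ^ k) * (Real.sqrt q * Real.sqrt D.card) ^ h := by
  have hq : 0 < q := hqp.pos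
  have hqr : (0 : ℝ) < q := by exact_mod_cast hq
  set C := CS q D k with hC
  have hCcard : (C.card : ℝ) ≤ (D.card : ℝ) ^ k := by exact_mod_cast card_CS q hq D k
  have hScard : (S.card : ℝ) ≤ (D.card : ℝ) ^ k := by
    refine le_trans ?_ hCcard
    have : S.card ≤ C.card := by
      apply Finset.card_le_card_of_injOn (fun s => X s % q ^ k)
      · intro s hs; exact hX s hs
      · intro a ha b hb hab; exact hinj a ha b hb hab
    exact_mod_cast this
  let z : ℕ × ℕ → ZMod (q ^ k) := fun a =>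
    -((a.1 : ZMod (q ^ k)) * ((mu a.2 : ℕ) : ZMod (q ^ k)))
  set P : Finset (ℕ × ℕ) := Finset.Ico 1 (q ^ h) ×ˢ S with hPdef
  have hsum : ∑ n ∈ Finset.Ico 1 (q ^ h), ∑ s ∈ S,
      ‖F (q ^ k) C (-((n : ZMod (q ^ k)) * ((mu s : ℕ) : ZMod (q ^ k))))‖
      = ∑ a ∈ P, ‖F (q ^ k) C (z a)‖ := by
    rw [hPdef, Finset.sum_product]
  rw [hsum]
  have hz : ∀ ζ : ZMod (q ^ k), (P.filter (fun a => z a = ζ)).card ≤ D.card ^ h := by
    intro ζ
    apply mult_bound q hqp D k h hh S X hX hXc hinj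
    · intro a ha
      have h1 := (Finset.mem_filter.mp ha).1
      rw [hPdef, Finset.mem_product, Finset.mem_Ico] at h1
      exact h1
    · intro a ha b hb
      have h1 := (Finset.mem_filter.mp ha).2
      have h2 := (Finset.mem_filter.mp hb).2
      have h3 : (a.1 : ZMod (q ^ k)) * ((mu a.2 : ℕ) : ZMod (q ^ k))
          = (b.1 : ZMod (q ^ k)) * ((mu b.2 : ℕ) : ZMod (q ^ k)) := by
        apply neg_injective
        show z a = z b
        rw [h1, h2]
      have hma := hmu a.2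
      have hmb := hmu b.2
      push_cast at hma hmb
      have hwu : IsUnit (w : ZMod (q ^ k)) := by
        rw [ZMod.isUnit_iff_coprime]; exact Nat.Coprime.pow_right k hw
      rw [← ZMod.natCast_eq_natCast_iff]
      push_cast
      apply hwu.mul_right_cancel
      -- multiply h3 by X_a w X_b w
      have h4 : (a.1 : ZMod (q ^ k)) * ((X b.2 : ZMod (q ^ k)) * w)
          = (b.1 : ZMod (q ^ k)) * ((X a.2 : ZMod (q ^ k)) * w) := by
        calc (a.1 : ZMod (q ^ k)) * ((X b.2 : ZMod (q ^ k)) * w)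
            = (a.1 : ZMod (q ^ k)) * ((X b.2 : ZMod (q ^ k)) * w) *
              ((mu a.2 : ZMod (q ^ k)) * ((X a.2 : ZMod (q ^ k)) * w)) := by rw [hma, mul_one]
          _ = ((a.1 : ZMod (q ^ k)) * (mu a.2 : ZMod (q ^ k))) *
              (((X b.2 : ZMod (q ^ k)) * w) * ((X a.2 : ZMod (q ^ k)) * w)) := by ring
          _ = ((b.1 : ZMod (q ^ k)) * (mu b.2 : ZMod (q ^ k))) *
              (((X b.2 : ZMod (q ^ k)) * w) * ((X a.2 : ZMod (q ^ k)) * w)) := by rw [h3]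
          _ = (b.1 : ZMod (q ^ k)) * ((X a.2 : ZMod (q ^ k)) * w) *
              ((mu b.2 : ZMod (q ^ k)) * ((X b.2 : ZMod (q ^ k)) * w)) := by ring
          _ = _ := by rw [hmb, mul_one]
      linear_combination h4
  have hb : ∀ r : ℕ, (C.filter (fun c => c % q ^ k = r)).card ≤ 1 := by
    intro r
    rw [Finset.card_le_one]
    intro a ha b hb
    obtain ⟨h1, h2⟩ := Finset.mem_filter.mp ha
    obtain ⟨h3, h4⟩ := Finset.mem_filter.mp hb
    rw [hC, mem_CS] at h1 h3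
    rw [Nat.mod_eq_of_lt h1.1] at h2
    rw [Nat.mod_eq_of_lt h3.1] at h4
    rw [h2, h4]
  have hms := sum_sq_mult' (q ^ k) C 1 (D.card ^ h) hb P z hz
  have hPcard : (P.card : ℝ) ≤ (q : ℝ) ^ h * (D.card : ℝ) ^ k := by
    rw [hPdef, Finset.card_product, Nat.card_Ico]
    push_cast
    have h1 : ((q ^ h - 1 : ℕ) : ℝ) ≤ (q : ℝ) ^ h := by
      have : q ^ h - 1 ≤ q ^ h := Nat.sub_le _ _
      exact_mod_cast this
    gcongr
  have hsq : (∑ a ∈ P, ‖F (q ^ k) C (z a)‖) ^ 2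
      ≤ (((D.card : ℝ) ^ k * Real.sqrt q ^ k) * (Real.sqrt q * Real.sqrt D.card) ^ h) ^ 2 := by
    have hrr : Real.sqrt q ^ 2 = q := Real.sq_sqrt hqr.le
    have hdd : Real.sqrt (D.card : ℝ) ^ 2 = D.card := Real.sq_sqrt (Nat.cast_nonneg _)
    calc (∑ a ∈ P, ‖F (q ^ k) C (z a)‖) ^ 2
        ≤ (P.card : ℝ) * ∑ a ∈ P, ‖F (q ^ k) C (z a)‖ ^ 2 := sq_sum_le_card_mul_sum_sq
      _ ≤ ((q : ℝ) ^ h * (D.card : ℝ) ^ k) * (((D.card ^ h : ℕ) : ℝ) *
          (((q ^ k : ℕ) : ℝ) * (C.card * ((1 : ℕ) : ℝ)))) := by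
          apply mul_le_mul hPcard hms (Finset.sum_nonneg fun _ _ => by positivity) (by positivity)
      _ ≤ ((q : ℝ) ^ h * (D.card : ℝ) ^ k) * ((D.card : ℝ) ^ h *
          ((q : ℝ) ^ k * (D.card : ℝ) ^ k)) := by
          push_cast
          rw [mul_one]
          gcongr
      _ = ((D.card : ℝ) ^ k * (Real.sqrt q ^ 2) ^ k * (D.card : ℝ) ^ k) *
            ((Real.sqrt q ^ 2) ^ h * (Real.sqrt D.card ^ 2) ^ h) := by
          rw [hrr, hdd]; ring
      _ = _ := by rw [mul_pow (Real.sqrt q) (Real.sqrt (D.card : ℝ)) h]; ring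
  exact (pow_le_pow_iff_left₀ (Finset.sum_nonneg fun _ _ => norm_nonneg _) (by positivity)
    two_ne_zero).mp hsq

/-- Splitting a weighted sum into `q`-adic ranges. -/
theorem split_sum (q : ℕ) (hq : 2 ≤ q) (A : ℕ → ℝ) (hA : ∀ n, 0 ≤ A n) (c : ℝ)
    (h0 k : ℕ) (hk : h0 ≤ k) :
    ∑ n ∈ Finset.Ico 1 (q ^ k), min c (1 / (n : ℝ)) * A n
      ≤ c * ∑ n ∈ Finset.Ico 1 (q ^ h0), A n
        + ∑ h ∈ Finset.Ico h0 k, (1 / (q : ℝ) ^ h) * ∑ n ∈ Finset.Ico 1 (q ^ (h + 1)), A n := by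
  induction k, hk using Nat.le_induction with
  | base =>
    rw [Finset.Ico_self, Finset.sum_empty, add_zero, Finset.mul_sum]
    apply Finset.sum_le_sum; intro n _
    exact mul_le_mul_of_nonneg_right (min_le_left _ _) (hA n)
  | succ k hk ih =>
    have hq0 : 0 < q := by omega
    have h1 : 1 ≤ q ^ k := Nat.one_le_pow _ _ hq0
    have h2 : q ^ k ≤ q ^ (k + 1) := Nat.pow_le_pow_right hq0 (by omega)
    rw [← Finset.sum_Ico_consecutive _ h1 h2, Finset.sum_Ico_succ_top hk, ← add_assoc]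
    apply add_le_add ih
    rw [Finset.mul_sum]
    calc ∑ n ∈ Finset.Ico (q ^ k) (q ^ (k + 1)), min c (1 / (n : ℝ)) * A n
        ≤ ∑ n ∈ Finset.Ico (q ^ k) (q ^ (k + 1)), 1 / (q : ℝ) ^ k * A n := by
          apply Finset.sum_le_sum; intro n hn
          rw [Finset.mem_Ico] at hn
          apply mul_le_mul_of_nonneg_right _ (hA n)
          refine le_trans (min_le_right _ _) ?_
          have hqk : (0 : ℝ) < (q : ℝ) ^ k := by positivity
          apply one_div_le_one_div_of_le hqk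
          exact_mod_cast hn.1
      _ ≤ _ := by
          apply Finset.sum_le_sum_of_subset_of_nonneg
          · intro x hx; rw [Finset.mem_Ico] at hx ⊢; omega
          · intro x _ _; exact mul_nonneg (by positivity) (hA x)

end Pool.Agent.W288.NK
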