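import Mathlib
import Pool.Agent.W288.NK.Digits
import Pool.Agent.W288.NK.Char
import Pool.Agent.W288.NK.Bound
import Pool.Agent.W288.NK.Energy

/-! The finite counting theorem, energy version. -/

namespace Pool.Agent.W288.NK

open Complex

theorem F_neg (M : ℕ) [NeZero M] (C : Finset ℕ) (z : ZMod M) : ‖F M C (-z)‖ = ‖F M C z‖ := by
  have : F M C (-z) = (starRingEnd ℂ) (F M C z) := by
    rw [F, F, map_sum]
    apply Finset.sum_congr rfl; intro c _
    rw [← AddChar.map_neg_eq_conj]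
    congr 1; ring
  rw [this, RCLike.norm_conj]

theorem sum_zmod (M : ℕ) [NeZero M] (f : ZMod M → ℝ) :
    ∑ y : ZMod M, f y = ∑ n ∈ Finset.range M, f (n : ZMod M) := by
  refine Finset.sum_nbij' (fun y : ZMod M => y.val) (fun n : ℕ => (n : ZMod M)) ?_ ?_ ?_ ?_ ?_
  · intro y _; exact Finset.mem_range.mpr (ZMod.val_lt y)
  · intro n _; exact Finset.mem_univ _
  · intro y _; exact ZMod.natCast_zmod_val y
  · intro n hn; exact ZMod.val_cast_of_lt (Finset.mem_range.mp hn)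
  · intro y _; rw [ZMod.natCast_zmod_val]

theorem G_le (M : ℕ) [NeZero M] (R : ℕ) (z : ZMod M) : ‖G M R z‖ ≤ R := by
  rw [G]
  refine le_trans (norm_sum_le _ _) ?_
  simp_rw [norm_char]
  simp

theorem F_le (M : ℕ) [NeZero M] (C : Finset ℕ) (z : ZMod M) : ‖F M C z‖ ≤ C.card := by
  rw [F]
  refine le_trans (norm_sum_le _ _) ?_
  simp_rw [norm_char]
  simp

theorem min_add_le (a b c : ℝ) (ha : 0 ≤ a) (hb : 0 ≤ b) (hc : 0 ≤ c) :
    min a (b + c) ≤ min a b + min a c := by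
  rcases le_total a b with h | h
  · rw [min_eq_left h]
    have : 0 ≤ min a c := le_min ha hc
    exact le_trans (min_le_left _ _) (by linarith)
  · rw [min_eq_right h]
    rcases le_total a c with h' | h'
    · rw [min_eq_left h']
      exact le_trans (min_le_left _ _) (by linarith)
    · rw [min_eq_right h']; exact min_le_right _ _

/-- Weighted sum over all nonzero frequencies of a symmetric function. -/
theorem weighted (Q : ℕ) [NeZero Q] (R : ℕ) (A : ℕ → ℝ) (hA : ∀ n, 0 ≤ A n)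
    (hsym : ∀ n, n ≤ Q → A (Q - n) = A n) :
    ∑ n ∈ Finset.Ico 1 Q, ‖G Q R (n : ZMod Q)‖ * A n
      ≤ (Q : ℝ) * ∑ n ∈ Finset.Ico 1 Q, min (2 * (R : ℝ) / (Q : ℝ)) (1 / (n : ℝ)) * A n := by
  have hQ : 0 < Q := Nat.pos_of_ne_zero (NeZero.ne Q)
  have hQr : (0 : ℝ) < Q := by exact_mod_cast hQ
  let m : ℕ → ℝ := fun n => min ((R : ℝ) / Q) (1 / (2 * (n : ℝ)))
  have h1 : ∀ n ∈ Finset.Ico 1 Q, ‖G Q R (n : ZMod Q)‖ * A n
      ≤ (Q : ℝ) * (m n * A n) + (Q : ℝ) * (m (Q - n) * A (Q - n)) := by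
    intro n hn
    rw [Finset.mem_Ico] at hn
    have hn0 : (0 : ℝ) < n := by exact_mod_cast hn.1
    have hn1 : (0 : ℝ) < (Q : ℝ) - n := by rw [sub_pos]; exact_mod_cast hn.2
    rw [hsym n hn.2.le]
    have g1 := geom_bound Q R n hn.1 hn.2
    have g2 := G_le Q R (n : ZMod Q)
    have g3 : ‖G Q R (n : ZMod Q)‖ ≤ (Q : ℝ) *
        min ((R : ℝ) / Q) (1 / (2 * (n : ℝ)) + 1 / (2 * ((Q : ℝ) - n))) := by
      rw [mul_min_of_nonneg _ _ hQr.le]
      apply le_min _ g1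
      rw [mul_div_cancel₀ _ hQr.ne']
      exact g2
    have g4 := min_add_le ((R : ℝ) / Q) (1 / (2 * (n : ℝ))) (1 / (2 * ((Q : ℝ) - n)))
      (by positivity) (by positivity) (by positivity)
    have e2 : ((Q - n : ℕ) : ℝ) = (Q : ℝ) - n := Nat.cast_sub hn.2.le
    have g5 : ‖G Q R (n : ZMod Q)‖ ≤ (Q : ℝ) * (m n + m (Q - n)) := by
      refine le_trans g3 (mul_le_mul_of_nonneg_left ?_ hQr.le)
      show _ ≤ min ((R : ℝ) / Q) (1 / (2 * (n : ℝ))) +
        min ((R : ℝ) / Q) (1 / (2 * ((Q - n : ℕ) : ℝ)))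
      rw [e2]; exact g4
    calc ‖G Q R (n : ZMod Q)‖ * A n ≤ (Q : ℝ) * (m n + m (Q - n)) * A n :=
          mul_le_mul_of_nonneg_right g5 (hA n)
      _ = _ := by ring
  refine le_trans (Finset.sum_le_sum h1) ?_
  rw [Finset.sum_add_distrib]
  have e3 : ∑ n ∈ Finset.Ico 1 Q, (Q : ℝ) * (m (Q - n) * A (Q - n))
      = ∑ n ∈ Finset.Ico 1 Q, (Q : ℝ) * (m n * A n) := by
    have := Finset.sum_Ico_reflect (fun n => (Q : ℝ) * (m n * A n)) 1
      (m := Q) (n := Q) (by omega)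
    rw [this]
    congr 1
    rw [show Q + 1 - Q = 1 by omega, show Q + 1 - 1 = Q by omega]
  rw [e3, ← Finset.sum_add_distrib, Finset.mul_sum]
  apply Finset.sum_le_sum; intro n _
  have e4 : (2 : ℝ) * m n = min (2 * (R : ℝ) / (Q : ℝ)) (1 / (n : ℝ)) := by
    show 2 * min ((R : ℝ) / Q) (1 / (2 * (n : ℝ))) = _
    rw [mul_min_of_nonneg _ _ (by norm_num : (0 : ℝ) ≤ 2)]
    congr 1
    · ring
    · rcases Nat.eq_zero_or_pos n with h | h
      · rw [h]; simp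
      · have : (n : ℝ) ≠ 0 := by positivity
        field_simp
  rw [← e4]
  apply le_of_eq; ring

theorem geom_tail (θ : ℝ) (h0 : 0 ≤ θ) (h1 : θ < 1) (a k : ℕ) :
    ∑ h ∈ Finset.Ico a k, θ ^ h ≤ θ ^ a / (1 - θ) := by
  rcases le_or_gt a k with hak | hak
  · rw [geom_sum_Ico h1.ne hak]
    have h2 : (θ ^ k - θ ^ a) / (θ - 1) = (θ ^ a - θ ^ k) / (1 - θ) := by
      rw [← neg_div_neg_eq]; congr 1 <;> ring
    rw [h2]
    have h3 : 0 < 1 - θ := by linarith
    have h4 : 0 ≤ θ ^ k := by positivity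
    apply div_le_div_of_nonneg_right _ h3.le
    linarith
  · rw [Finset.Ico_eq_empty (by omega), Finset.sum_empty]
    have h3 : 0 < 1 - θ := by linarith
    positivity

set_option maxHeartbeats 4000000 in
theorem total_bound2 (q : ℕ) (hqp : q.Prime) (D : Finset ℕ) (hD1 : 1 ≤ D.card) (hD : D.card < q)
    (k h0 T R w : ℕ) (hh : h0 ≤ k)
    (hw : Nat.Coprime w q) (X : ℕ → ℕ) (hXc : ∀ s, Nat.Coprime (X s) q)
    (hinj : ∀ s < T, ∀ s' < T, X s % q ^ k = X s' % q ^ k → s = s') :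
    (∑ s ∈ Finset.range T, (((Finset.range R).filter (fun m => X s % q ^ k ∈ CS q D k ∧
        (X s / q ^ k + X s * w * m) % q ^ k ∈ CS q D k)).card : ℝ))
      ≤ (R : ℝ) / (q : ℝ) ^ k * ((D.card : ℝ) ^ k * (D.card : ℝ) ^ k)
        + ((D.card : ℝ) ^ k * Real.sqrt q ^ k) *
          (2 * ((R : ℝ) / (q : ℝ) ^ k) * (Real.sqrt q * Real.sqrt D.card) ^ h0
            + (Real.sqrt q * Real.sqrt D.card) *
              ((Real.sqrt D.card / Real.sqrt q) ^ h0 / (1 - Real.sqrt D.card / Real.sqrt q))) := by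
  have hNZ : NeZero q := ⟨hqp.ne_zero⟩
  have hq : 0 < q := hqp.pos
  have hqr : (0 : ℝ) < q := by exact_mod_cast hq
  set S := (Finset.range T).filter (fun s => X s % q ^ k ∈ CS q D k) with hS
  set C := CS q D k with hC
  have hlhs : (∑ s ∈ Finset.range T, (((Finset.range R).filter (fun m => X s % q ^ k ∈ C ∧
        (X s / q ^ k + X s * w * m) % q ^ k ∈ C)).card : ℝ))
      = ∑ s ∈ S, (((Finset.range R).filter (fun m =>
        (X s / q ^ k + X s * w * m) % q ^ k ∈ C)).card : ℝ) := by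
    rw [hS, Finset.sum_filter]
    apply Finset.sum_congr rfl; intro s _
    split_ifs with h
    · simp [h]
    · simp [h]
  rw [hlhs]
  have hmu : ∀ s, ∃ m : ℕ, ((m * (X s * w) : ℕ) : ZMod (q ^ k)) = 1 := by
    intro s
    have h1 : Nat.Coprime (X s * w) (q ^ k) := Nat.Coprime.pow_right k ((hXc s).mul_left hw)
    have h2 := ZMod.coe_mul_inv_eq_one (X s * w) h1
    refine ⟨((X s * w : ℕ) : ZMod (q ^ k))⁻¹.val, ?_⟩
    rw [Nat.cast_mul, ZMod.natCast_zmod_val, mul_comm]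
    exact h2
  choose mu hmu using hmu
  have hSX : ∀ s ∈ S, X s % q ^ k ∈ C := fun s hs => (Finset.mem_filter.mp hs).2
  have hSinj : ∀ s ∈ S, ∀ s' ∈ S, X s % q ^ k = X s' % q ^ k → s = s' := by
    intro s hs s' hs' h
    exact hinj s (Finset.mem_range.mp (Finset.mem_filter.mp hs).1) s'
      (Finset.mem_range.mp (Finset.mem_filter.mp hs').1) h
  have hCcard : (C.card : ℝ) ≤ (D.card : ℝ) ^ k := by exact_mod_cast card_CS q hq D k
  have hScard : (S.card : ℝ) ≤ (D.card : ℝ) ^ k := by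
    refine le_trans ?_ hCcard
    have : S.card ≤ C.card := by
      apply Finset.card_le_card_of_injOn (fun s => X s % q ^ k)
      · intro s hs; exact hSX s hs
      · intro a ha b hb hab; exact hSinj a ha b hb hab
    exact_mod_cast this
  let A : ℕ → ℝ := fun n => ∑ s ∈ S,
    ‖F (q ^ k) C (-((n : ZMod (q ^ k)) * ((mu s : ℕ) : ZMod (q ^ k))))‖
  have hA0 : ∀ n, 0 ≤ A n := fun n => Finset.sum_nonneg fun _ _ => norm_nonneg _
  have hAsym : ∀ n, n ≤ q ^ k → A (q ^ k - n) = A n := by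
    intro n hn
    apply Finset.sum_congr rfl; intro s _
    rw [← F_neg]
    congr 2
    have : ((q ^ k - n : ℕ) : ZMod (q ^ k)) = -(n : ZMod (q ^ k)) := by
      rw [Nat.cast_sub hn, ZMod.natCast_self, zero_sub]
    rw [this]; ring
  have hstep : ((q ^ k : ℕ) : ℝ) * ∑ s ∈ S, (((Finset.range R).filter (fun m =>
        (X s / q ^ k + X s * w * m) % q ^ k ∈ C)).card : ℝ)
      ≤ ∑ y : ZMod (q ^ k), ‖G (q ^ k) R y‖ *
        ∑ s ∈ S, ‖F (q ^ k) C (-(y * ((mu s : ℕ) : ZMod (q ^ k))))‖ := by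
    rw [Finset.mul_sum]
    simp_rw [Finset.mul_sum]
    rw [Finset.sum_comm]
    apply Finset.sum_le_sum; intro s _
    apply count_bound (q ^ k) C (fun c hc => ((mem_CS q D k c).mp hc).1) R (X s * w) (X s / q ^ k)
    have := hmu s
    rw [Nat.cast_mul] at this
    exact this
  rw [sum_zmod] at hstep
  have hQ1 : 1 ≤ q ^ k := Nat.one_le_pow _ _ hq
  have hQr : (0 : ℝ) < ((q ^ k : ℕ) : ℝ) := by exact_mod_cast hQ1
  have hsplit : Finset.range (q ^ k) = insert 0 (Finset.Ico 1 (q ^ k)) := by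
    ext x; simp only [Finset.mem_range, Finset.mem_insert, Finset.mem_Ico]; omega
  rw [hsplit, Finset.sum_insert (by rw [Finset.mem_Ico]; omega)] at hstep
  have h0b : ‖G (q ^ k) R ((0 : ℕ) : ZMod (q ^ k))‖ * A 0
      ≤ (R : ℝ) * ((D.card : ℝ) ^ k * (D.card : ℝ) ^ k) := by
    apply mul_le_mul (G_le _ _ _) _ (hA0 0) (Nat.cast_nonneg _)
    calc A 0 ≤ ∑ s ∈ S, (D.card : ℝ) ^ k :=
          Finset.sum_le_sum fun s _ => le_trans (F_le _ _ _) hCcard
      _ = (S.card : ℝ) * (D.card : ℝ) ^ k := by rw [Finset.sum_const, nsmul_eq_mul]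
      _ ≤ _ := mul_le_mul_of_nonneg_right hScard (pow_nonneg (Nat.cast_nonneg _) _)
  have hw1 := weighted (q ^ k) R A hA0 hAsym
  have hw2 := split_sum q hqp.two_le A hA0 (2 * R / ((q ^ k : ℕ) : ℝ)) h0 k hh
  have hP : ∀ h, h ≤ k → ∑ n ∈ Finset.Ico 1 (q ^ h), A n
      ≤ ((D.card : ℝ) ^ k * Real.sqrt q ^ k) * (Real.sqrt q * Real.sqrt D.card) ^ h :=
    fun h hhk => P_bound q hqp D k h w hhk hw S X hSX hXc hSinj mu hmu
  have hr0 : 0 < Real.sqrt q := Real.sqrt_pos.mpr hqr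
  have hdr : (0 : ℝ) < D.card := by exact_mod_cast hD1
  have he0 : 0 < Real.sqrt (D.card : ℝ) := Real.sqrt_pos.mpr hdr
  have her : Real.sqrt (D.card : ℝ) < Real.sqrt q :=
    Real.sqrt_lt_sqrt hdr.le (by exact_mod_cast hD)
  have hrr : Real.sqrt q ^ 2 = q := Real.sq_sqrt hqr.le
  set r := Real.sqrt q with hr
  set e := Real.sqrt (D.card : ℝ) with he
  set B : ℝ := (D.card : ℝ) ^ k * r ^ k with hB
  have hB0 : 0 ≤ B := mul_nonneg (pow_nonneg hdr.le _) (pow_nonneg hr0.le _)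
  have hθ0 : 0 ≤ e / r := div_nonneg he0.le hr0.le
  have hθ1 : e / r < 1 := by rw [div_lt_one hr0]; exact her
  have hw3 : ∑ h ∈ Finset.Ico h0 k, (1 / (q : ℝ) ^ h) * ∑ n ∈ Finset.Ico 1 (q ^ (h + 1)), A n
      ≤ B * ((r * e) * ((e / r) ^ h0 / (1 - e / r))) := by
    calc ∑ h ∈ Finset.Ico h0 k, (1 / (q : ℝ) ^ h) * ∑ n ∈ Finset.Ico 1 (q ^ (h + 1)), A n
        ≤ ∑ h ∈ Finset.Ico h0 k, (1 / (q : ℝ) ^ h) * (B * (r * e) ^ (h + 1)) := by
          apply Finset.sum_le_sum; intro h hh'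
          rw [Finset.mem_Ico] at hh'
          apply mul_le_mul_of_nonneg_left (hP (h + 1) (by omega))
          positivity
      _ = B * ((r * e) * ∑ h ∈ Finset.Ico h0 k, (e / r) ^ h) := by
          rw [Finset.mul_sum, Finset.mul_sum]
          apply Finset.sum_congr rfl; intro h _
          have e1 : (q : ℝ) ^ h = r ^ h * r ^ h := by rw [← hrr]; ring
          rw [e1, pow_succ, mul_pow, div_pow]
          field_simp
      _ ≤ _ := by
          apply mul_le_mul_of_nonneg_left _ hB0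
          apply mul_le_mul_of_nonneg_left (geom_tail _ hθ0 hθ1 _ _)
          positivity
  have hw4 : 2 * R / ((q ^ k : ℕ) : ℝ) * ∑ n ∈ Finset.Ico 1 (q ^ h0), A n
      ≤ B * (2 * ((R : ℝ) / (q : ℝ) ^ k) * (r * e) ^ h0) := by
    have h1 := hP h0 hh
    calc 2 * R / ((q ^ k : ℕ) : ℝ) * ∑ n ∈ Finset.Ico 1 (q ^ h0), A n
        ≤ 2 * R / ((q ^ k : ℕ) : ℝ) * (B * (r * e) ^ h0) := by
          apply mul_le_mul_of_nonneg_left h1; positivity
      _ = _ := by push_cast; ring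
  have h3 : ((q ^ k : ℕ) : ℝ) * ∑ s ∈ S, (((Finset.range R).filter (fun m =>
        (X s / q ^ k + X s * w * m) % q ^ k ∈ C)).card : ℝ)
      ≤ (R : ℝ) * ((D.card : ℝ) ^ k * (D.card : ℝ) ^ k) + ((q ^ k : ℕ) : ℝ) *
        (B * (2 * ((R : ℝ) / (q : ℝ) ^ k) * (r * e) ^ h0)
          + B * ((r * e) * ((e / r) ^ h0 / (1 - e / r)))) := by
    refine le_trans hstep (add_le_add h0b (le_trans hw1 ?_))
    apply mul_le_mul_of_nonneg_left _ hQr.le
    exact le_trans hw2 (add_le_add hw4 hw3)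
  have h4 : ∑ s ∈ S, (((Finset.range R).filter (fun m =>
        (X s / q ^ k + X s * w * m) % q ^ k ∈ C)).card : ℝ)
      ≤ ((R : ℝ) * ((D.card : ℝ) ^ k * (D.card : ℝ) ^ k)) / ((q ^ k : ℕ) : ℝ)
        + (B * (2 * ((R : ℝ) / (q : ℝ) ^ k) * (r * e) ^ h0)
          + B * ((r * e) * ((e / r) ^ h0 / (1 - e / r)))) := by
    rw [← mul_le_mul_iff_right₀ hQr]
    refine le_trans h3 (le_of_eq ?_)
    have hx : ((q ^ k : ℕ) : ℝ) * (((R : ℝ) * ((D.card : ℝ) ^ k * (D.card : ℝ) ^ k)) /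
      ((q ^ k : ℕ) : ℝ)) = (R : ℝ) * ((D.card : ℝ) ^ k * (D.card : ℝ) ^ k) :=
      mul_div_cancel₀ _ hQr.ne'
    linear_combination -hx
  refine le_trans h4 (le_of_eq ?_)
  push_cast
  ring

end Pool.Agent.W288.NK
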