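import Mathlib

/-! Lifting the exponent: the period of `p^n` modulo `q^k`. -/

namespace Pool.Agent.W288.NK

theorem lte (q p : ℕ) (hq : q.Prime) (hq2 : q ≠ 2) (hp : 2 ≤ p) (hpq : ¬ q ∣ p) :
    ∃ f t : ℕ, 1 ≤ f ∧ 1 ≤ t ∧ ∀ k, f ≤ k →
      (∃ w, Nat.Coprime w q ∧ p ^ (t * q ^ (k - f)) = 1 + q ^ k * w) ∧
      (∀ j, p ^ j ≡ 1 [MOD q ^ k] → t * q ^ (k - f) ∣ j) := by
  have : Fact q.Prime := ⟨hq⟩
  have hodd : Odd q := hq.odd_of_ne_two hq2
  set t := orderOf (p : ZMod q) with ht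
  have hpu : IsUnit (p : ZMod q) := by
    rw [ZMod.isUnit_iff_coprime]
    exact Nat.Coprime.symm ((Nat.Prime.coprime_iff_not_dvd hq).mpr hpq)
  have ht1 : 1 ≤ t := by
    rw [ht, Nat.one_le_iff_ne_zero, ← Nat.pos_iff_ne_zero, orderOf_pos_iff]
    exact isOfFinOrder_iff_isUnit.mpr hpu
  have hpt1 : 1 < p ^ t := Nat.one_lt_pow (by omega) (by omega)
  have hdvd : q ∣ p ^ t - 1 := by
    rw [← ZMod.natCast_eq_zero_iff, Nat.cast_sub hpt1.le, Nat.cast_pow, Nat.cast_one, ht,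
      pow_orderOf_eq_one, sub_self]
  have hndvd : ¬ q ∣ p ^ t := fun h => hpq (hq.dvd_of_dvd_pow h)
  set f := padicValNat q (p ^ t - 1) with hf
  have hne : ∀ l, 1 ≤ l → p ^ (t * l) - 1 ≠ 0 := by
    intro l hl
    have : 1 < p ^ (t * l) := Nat.one_lt_pow (by positivity) (by omega)
    omega
  have hval : ∀ l, 1 ≤ l → padicValNat q (p ^ (t * l) - 1) = f + padicValNat q l := by
    intro l hl
    have := padicValNat.pow_sub_pow (p := q) hodd (x := p ^ t) (y := 1) hpt1 hdvd hndvd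
      (n := l) (by omega)
    rw [one_pow, ← pow_mul] at this
    exact this
  have hf1 : 1 ≤ f := by
    rw [hf]
    exact one_le_padicValNat_of_dvd (by omega) hdvd
  refine ⟨f, t, hf1, ht1, ?_⟩
  intro k hk
  constructor
  · have hl : 1 ≤ q ^ (k - f) := Nat.one_le_pow _ _ hq.pos
    have h1 := hval _ hl
    rw [padicValNat.prime_pow] at h1
    have h2 : padicValNat q (p ^ (t * q ^ (k - f)) - 1) = k := by omega
    have h3 : q ^ k ∣ p ^ (t * q ^ (k - f)) - 1 := by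
      rw [padicValNat_dvd_iff_le (hne _ hl)]; omega
    obtain ⟨w, hw⟩ := h3
    refine ⟨w, ?_, ?_⟩
    · apply Nat.Coprime.symm
      rw [Nat.Prime.coprime_iff_not_dvd hq]
      rintro ⟨w', hw'⟩
      have h4 : q ^ (k + 1) ∣ p ^ (t * q ^ (k - f)) - 1 := ⟨w', by rw [hw, hw', pow_succ]; ring⟩
      rw [padicValNat_dvd_iff_le (hne _ hl)] at h4
      omega
    · have := hne _ hl
      omega
  · intro j hj
    rcases Nat.eq_zero_or_pos j with h0 | h0
    · rw [h0]; exact dvd_zero _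
    have h1 : p ^ j ≡ 1 [MOD q] := Nat.ModEq.of_dvd (dvd_pow_self q (by omega)) hj
    have h2 : (p : ZMod q) ^ j = 1 := by
      have := (ZMod.natCast_eq_natCast_iff _ _ q).mpr h1
      push_cast at this
      exact this
    obtain ⟨l, rfl⟩ := orderOf_dvd_of_pow_eq_one h2
    rw [← ht] at *
    have hl1 : 1 ≤ l := by
      rcases Nat.eq_zero_or_pos l with h | h
      · rw [h] at h0; simp at h0
      · exact h
    have h3 : q ^ k ∣ p ^ (t * l) - 1 := by
      have hle : 1 ≤ p ^ (t * l) := Nat.one_le_pow _ _ (by omega)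
      exact (Nat.modEq_iff_dvd' hle).mp hj.symm
    rw [padicValNat_dvd_iff_le (hne _ hl1), hval _ hl1] at h3
    apply Nat.mul_dvd_mul_left
    rw [padicValNat_dvd_iff_le (by omega)]
    omega

end Pool.Agent.W288.NK
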