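import Mathlib
import Pool.Agent.W288.NK.Digits
import Pool.Agent.W288.NK.Count2
import Pool.Agent.W288.NK.Lte

/-! The counting bound with the optimal choice of parameters, energy version. -/

namespace Pool.Agent.W288.NK

set_option maxHeartbeats 4000000 in
theorem count_N2 (q p : ℕ) (hq : q.Prime) (hq2 : q ≠ 2) (hp : 2 ≤ p) (hpq : ¬ q ∣ p)
    (D : Finset ℕ) (hD1 : 1 ≤ D.card) (hD : D.card < q) :
    ∃ f : ℕ, ∀ u, Nat.Coprime u q → ∀ k, f ≤ k → ∀ N h0 : ℕ, h0 ≤ k →
      ((((Finset.range N).filter (fun n => good q D (k + k) (u * p ^ n))).card : ℕ) : ℝ)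
        ≤ (((N : ℝ) * (q : ℝ) ^ f / (q : ℝ) ^ k + 1) / (q : ℝ) ^ k) *
            ((D.card : ℝ) ^ k * (D.card : ℝ) ^ k)
        + ((D.card : ℝ) ^ k * Real.sqrt q ^ k) *
          (2 * (((N : ℝ) * (q : ℝ) ^ f / (q : ℝ) ^ k + 1) / (q : ℝ) ^ k) *
            (Real.sqrt q * Real.sqrt D.card) ^ h0
            + (Real.sqrt q * Real.sqrt D.card) *
              ((Real.sqrt D.card / Real.sqrt q) ^ h0 / (1 - Real.sqrt D.card / Real.sqrt q))) := by
  obtain ⟨f, t, hf1, ht1, hlte⟩ := lte q p hq hq2 hp hpq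
  refine ⟨f, ?_⟩
  intro u hu k hk N h0 hh0
  obtain ⟨⟨w, hwc, hw⟩, hper⟩ := hlte k hk
  have hqr : (0 : ℝ) < q := by exact_mod_cast hq.pos
  set T := t * q ^ (k - f) with hT
  have hTpos : 0 < T := Nat.mul_pos (by omega) (pow_pos hq.pos _)
  have hpc : Nat.Coprime p q := Nat.Coprime.symm ((Nat.Prime.coprime_iff_not_dvd hq).mpr hpq)
  have hXc : ∀ s, Nat.Coprime (u * p ^ s) q := fun s => hu.mul_left (hpc.pow_left s)
  have hinj0 : ∀ s s', s ≤ s' → s' < T → (u * p ^ s) % q ^ k = (u * p ^ s') % q ^ k → s = s' := by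
    intro s s' hss hs' h
    have h1 : u * p ^ s ≡ u * p ^ s' [MOD q ^ k] := h
    have h2 : u * p ^ s * 1 ≡ u * p ^ s * p ^ (s' - s) [MOD q ^ k] := by
      rw [mul_one, mul_assoc, ← pow_add, Nat.add_sub_cancel' hss]; exact h1
    have h3 : Nat.gcd (q ^ k) (u * p ^ s) = 1 :=
      Nat.Coprime.symm (Nat.Coprime.pow_right k (hXc s))
    have h4 : (1 : ℕ) ≡ p ^ (s' - s) [MOD q ^ k] := Nat.ModEq.cancel_left_of_coprime h3 h2
    have h5 := hper _ h4.symm
    rcases Nat.eq_zero_or_pos (s' - s) with h6 | h6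
    · omega
    · have := Nat.le_of_dvd h6 h5
      omega
  have hinj : ∀ s < T, ∀ s' < T, (u * p ^ s) % q ^ k = (u * p ^ s') % q ^ k → s = s' := by
    intro s hs s' hs' h
    rcases le_total s s' with h1 | h1
    · exact hinj0 s s' h1 hs' h
    · exact (hinj0 s' s h1 hs h.symm).symm
  have htb := total_bound2 q hq D hD1 hD k h0 T (N / T + 1) w hh0 hwc
    (fun s => u * p ^ s) hXc hinj
  have hcount : (((Finset.range N).filter (fun n => good q D (k + k) (u * p ^ n))).card : ℕ)
      ≤ ∑ s ∈ Finset.range T, ((Finset.range (N / T + 1)).filter (fun m =>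
        (u * p ^ s) % q ^ k ∈ CS q D k ∧
        ((u * p ^ s) / q ^ k + (u * p ^ s) * w * m) % q ^ k ∈ CS q D k)).card := by
    rw [Finset.card_eq_sum_card_fiberwise (f := fun n => n % T) (t := Finset.range T)
      (fun n _ => Finset.mem_coe.mpr (Finset.mem_range.mpr (Nat.mod_lt _ hTpos)))]
    apply Finset.sum_le_sum; intro s _
    apply Finset.card_le_card_of_injOn (fun n => n / T)
    · intro n hn
      obtain ⟨h1, h2⟩ := Finset.mem_filter.mp (Finset.mem_coe.mp hn)
      obtain ⟨h3, h4⟩ := Finset.mem_filter.mp h1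
      rw [Finset.mem_coe, Finset.mem_filter]
      refine ⟨?_, ?_⟩
      · rw [Finset.mem_range] at h3 ⊢
        have := Nat.div_le_div_right (c := T) h3.le
        show n / T < N / T + 1
        omega
      · have h5 : u * p ^ n = u * p ^ s * (1 + q ^ k * w) ^ (n / T) := by
          rw [← hw, ← pow_mul, mul_assoc, ← pow_add]
          congr 2
          rw [← h2, Nat.mod_add_div]
        rw [h5] at h4
        exact good_split q hq.pos D k _ w _ h4
    · intro a ha b hb hab
      obtain ⟨_, h2⟩ := Finset.mem_filter.mp (Finset.mem_coe.mp ha)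
      obtain ⟨_, h3⟩ := Finset.mem_filter.mp (Finset.mem_coe.mp hb)
      simp only at hab h2 h3
      rw [← Nat.mod_add_div a T, ← Nat.mod_add_div b T, h2, h3, hab]
  have hcount' : ((((Finset.range N).filter (fun n => good q D (k + k) (u * p ^ n))).card : ℕ) : ℝ)
      ≤ ∑ s ∈ Finset.range T, (((Finset.range (N / T + 1)).filter (fun m =>
        (u * p ^ s) % q ^ k ∈ CS q D k ∧
        ((u * p ^ s) / q ^ k + (u * p ^ s) * w * m) % q ^ k ∈ CS q D k)).card : ℝ) := by
    exact_mod_cast hcount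
  refine le_trans hcount' (le_trans htb ?_)
  have hR : ((N / T + 1 : ℕ) : ℝ) ≤ (N : ℝ) * (q : ℝ) ^ f / (q : ℝ) ^ k + 1 := by
    push_cast
    have h1 : ((N / T : ℕ) : ℝ) ≤ (N : ℝ) / (T : ℝ) := Nat.cast_div_le
    have h2 : (N : ℝ) / (T : ℝ) ≤ (N : ℝ) * (q : ℝ) ^ f / (q : ℝ) ^ k := by
      rw [div_le_div_iff₀ (by exact_mod_cast hTpos) (by positivity)]
      have h3 : (q : ℝ) ^ k ≤ (q : ℝ) ^ f * (T : ℝ) := by
        have h4 : q ^ k ≤ q ^ f * T := by
          calc q ^ k = q ^ f * q ^ (k - f) := by rw [← pow_add]; congr 1; omega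
            _ ≤ q ^ f * (t * q ^ (k - f)) := by
                apply Nat.mul_le_mul_left
                exact Nat.le_mul_of_pos_left _ ht1
            _ = _ := by rw [hT]
        exact_mod_cast h4
      calc (N : ℝ) * (q : ℝ) ^ k ≤ (N : ℝ) * ((q : ℝ) ^ f * (T : ℝ)) := by gcongr
        _ = _ := by ring
    linarith
  gcongr

/-- The number of digit blocks used for a given `N`. -/
noncomputable def blockLen (q : ℕ) (a : ℝ) (N : ℕ) : ℕ :=
  ⌈(1 + a) / 3 * (Real.log N / Real.log q)⌉₊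

set_option maxHeartbeats 4000000 in
theorem main_asymp (q p : ℕ) (hq : q.Prime) (hq2 : q ≠ 2) (hp : 2 ≤ p) (hpq : ¬ q ∣ p)
    (D : Finset ℕ) (hD1 : q < D.card ^ 2) (hD : D.card < q) (a : ℝ)
    (ha : a = Real.log D.card / Real.log q) :
    ∃ C : ℝ, 0 < C ∧ ∀ u, Nat.Coprime u q → ∀ N : ℕ, 1 ≤ N →
      ((((Finset.range N).filter (fun n =>
        good q D (2 * blockLen q a N) (u * p ^ n))).card : ℕ) : ℝ)
        ≤ C * (N : ℝ) ^ ((1 + 2 * a ^ 2) / 3) := by
  have hDc1 : 1 ≤ D.card := by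
    rcases Nat.eq_zero_or_pos D.card with h | h
    · rw [h] at hD1; omega
    · exact h
  obtain ⟨f, hf⟩ := count_N2 q p hq hq2 hp hpq D hDc1 hD
  set d : ℕ := D.card with hd
  have hqr : (2 : ℝ) ≤ q := by exact_mod_cast hq.two_le
  have hq0 : (0 : ℝ) < q := by linarith
  have hdr1 : (1 : ℝ) ≤ d := by exact_mod_cast hDc1
  have hd0 : (0 : ℝ) < d := by linarith
  have hdq : (d : ℝ) < q := by exact_mod_cast hD
  set l := Real.log q with hl
  have hl0 : 0 < l := Real.log_pos (by linarith)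
  have hld : Real.log d = a * l := by rw [ha]; field_simp
  have ha1 : a < 1 := by
    rw [ha, div_lt_one hl0]; exact Real.log_lt_log hd0 hdq
  have ha2 : 1 / 2 < a := by
    rw [ha, lt_div_iff₀ hl0]
    have h1 : Real.log q < Real.log ((d : ℝ) ^ 2) := by
      apply Real.log_lt_log hq0
      exact_mod_cast hD1
    rw [Real.log_pow] at h1
    push_cast at h1
    linarith
  have hqe : Real.exp l = q := Real.exp_log hq0
  have hde : Real.exp (a * l) = d := by rw [← hld, Real.exp_log hd0]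
  have hre : Real.exp (l / 2) = Real.sqrt q := by
    rw [← Real.log_sqrt hq0.le, Real.exp_log (Real.sqrt_pos.mpr hq0)]
  have hee : Real.exp (a * l / 2) = Real.sqrt d := by
    rw [← hld, ← Real.log_sqrt hd0.le, Real.exp_log (Real.sqrt_pos.mpr hd0)]
  clear hld ha
  have ha0 : 0 < a := by linarith
  -- powers
  have pq : ∀ n : ℕ, (q : ℝ) ^ n = Real.exp (n * l) := fun n => by rw [Real.exp_nat_mul, hqe]
  have pd : ∀ n : ℕ, (d : ℝ) ^ n = Real.exp (n * (a * l)) := fun n => by
    rw [Real.exp_nat_mul, hde]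
  have pr : ∀ n : ℕ, (Real.sqrt q) ^ n = Real.exp (n * (l / 2)) := fun n => by
    rw [Real.exp_nat_mul, hre]
  have pre : ∀ n : ℕ, (Real.sqrt q * Real.sqrt d) ^ n = Real.exp (n * (l / 2 + a * l / 2)) :=
    fun n => by rw [Real.exp_nat_mul, Real.exp_add, hre, hee]
  have per : ∀ n : ℕ, (Real.sqrt d / Real.sqrt q) ^ n = Real.exp (n * (a * l / 2 - l / 2)) :=
    fun n => by rw [Real.exp_nat_mul, Real.exp_sub, hre, hee]
  set θ : ℝ := Real.sqrt d / Real.sqrt q with hθ
  have hθe : θ = Real.exp (a * l / 2 - l / 2) := by rw [hθ, Real.exp_sub, hre, hee]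
  have hθ1 : θ < 1 := by
    rw [hθe, Real.exp_lt_one_iff]; nlinarith
  have hθ0 : 0 < θ := by rw [hθe]; exact Real.exp_pos _
  set η : ℝ := (2 * a - 1) / (1 + a) with hη
  have h1a : 0 < 1 + a := by linarith
  have hη0 : 0 < η := div_pos (by linarith) h1a
  have hη1 : η ≤ 1 := by rw [hη, div_le_one h1a]; linarith
  have hηe : η * (1 + a) = 2 * a - 1 := by rw [hη]; field_simp
  set E1 : ℝ := (1 + 2 * a ^ 2) / (1 + a) with hE1
  have hE1e : E1 * (1 + a) = 1 + 2 * a ^ 2 := by rw [hE1]; field_simp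
  have hE1η : E1 = 2 * a - η := by
    have : E1 * (1 + a) = (2 * a - η) * (1 + a) := by rw [hE1e, sub_mul, hηe]; ring
    exact mul_right_cancel₀ h1a.ne' this
  have hE1η2 : E1 = a + 1 / 2 - η * (1 - a) / 2 := by
    have : E1 * (1 + a) = (a + 1 / 2 - η * (1 - a) / 2) * (1 + a) := by
      rw [hE1e]
      have : (a + 1 / 2 - η * (1 - a) / 2) * (1 + a)
        = (a + 1 / 2) * (1 + a) - (η * (1 + a)) * (1 - a) / 2 := by ring
      rw [this, hηe]; ring
    exact mul_right_cancel₀ h1a.ne' this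
  have hE10 : 0 < E1 := by rw [hE1]; positivity
  set Qf : ℝ := (q : ℝ) ^ f + 1 with hQf
  have hQf0 : 0 < Qf := by positivity
  set K3 : ℝ := (Real.sqrt q * Real.sqrt d) * (1 / θ) * (1 / (1 - θ)) with hK3
  have h1θ : 0 < 1 - θ := by linarith
  have hK30 : 0 ≤ K3 := by positivity
  set Cc : ℝ := 3 * Qf + K3 with hCc
  have hCc0 : 0 < Cc := by positivity
  refine ⟨Cc * Real.exp (l * E1) + Real.exp (3 * f * l / (1 + a)), by positivity, ?_⟩
  intro u hu N hN
  have hNr : (1 : ℝ) ≤ N := by exact_mod_cast hN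
  have hN0 : (0 : ℝ) < N := by linarith
  have hlogN : 0 ≤ Real.log N := Real.log_nonneg hNr
  have hE0 : 0 ≤ (1 + 2 * a ^ 2) / 3 := by positivity
  have hNE : 1 ≤ (N : ℝ) ^ ((1 + 2 * a ^ 2) / 3) := Real.one_le_rpow hNr hE0
  set k := blockLen q a N with hk
  have hk1 : (1 + a) / 3 * (Real.log N / l) ≤ k := by rw [hk, blockLen]; exact Nat.le_ceil _
  have hk2 : (k : ℝ) < (1 + a) / 3 * (Real.log N / l) + 1 := by
    rw [hk, blockLen]; exact Nat.ceil_lt_add_one (by positivity)
  have hk1' : Real.log N ≤ 3 * k * l / (1 + a) := by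
    rw [le_div_iff₀ h1a]
    have h := mul_le_mul_of_nonneg_right hk1 hl0.le
    have e : (1 + a) / 3 * (Real.log N / l) * l = (1 + a) / 3 * Real.log N := by field_simp
    rw [e] at h
    linarith
  have hk2' : (k : ℝ) * l ≤ (1 + a) / 3 * Real.log N + l := by
    have h := mul_le_mul_of_nonneg_right hk2.le hl0.le
    have e : ((1 + a) / 3 * (Real.log N / l) + 1) * l = (1 + a) / 3 * Real.log N + l := by
      field_simp
    linarith
  have hNexp : (N : ℝ) ≤ Real.exp (3 * k * l / (1 + a)) := by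
    calc (N : ℝ) = Real.exp (Real.log N) := (Real.exp_log hN0).symm
      _ ≤ _ := Real.exp_le_exp.mpr hk1'
  rw [two_mul]
  rcases lt_or_ge k f with hkf | hkf
  · have h1 : ((((Finset.range N).filter (fun n => good q D (k + k) (u * p ^ n))).card : ℕ) : ℝ)
        ≤ N := by
      have := Finset.card_filter_le (Finset.range N) (fun n => good q D (k + k) (u * p ^ n))
      rw [Finset.card_range] at this
      exact_mod_cast this
    have hkf' : (k : ℝ) ≤ f := by exact_mod_cast hkf.le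
    have h2 : Real.exp (3 * k * l / (1 + a)) ≤ Real.exp (3 * f * l / (1 + a)) := by
      apply Real.exp_le_exp.mpr
      gcongr
    calc _ ≤ (N : ℝ) := h1
      _ ≤ Real.exp (3 * f * l / (1 + a)) * 1 := by linarith
      _ ≤ (Cc * Real.exp (l * E1) + Real.exp (3 * f * l / (1 + a))) *
            (N : ℝ) ^ ((1 + 2 * a ^ 2) / 3) := by
          apply mul_le_mul _ hNE (by norm_num) (by positivity)
          have : 0 ≤ Cc * Real.exp (l * E1) := by positivity
          linarith
  · set h0 := ⌊η * k⌋₊ with hh0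
    have hηk0 : 0 ≤ η * k := by positivity
    have hh0a : (h0 : ℝ) ≤ η * k := Nat.floor_le hηk0
    have hh0b : η * k < h0 + 1 := Nat.lt_floor_add_one _
    have hh0k : h0 ≤ k := by
      have : (h0 : ℝ) ≤ k := by
        have : η * k ≤ 1 * k := by gcongr
        linarith
      exact_mod_cast this
    have h1 := hf u hu k hkf N h0 hh0k
    set ρ : ℝ := ((N : ℝ) * (q : ℝ) ^ f / (q : ℝ) ^ k + 1) / (q : ℝ) ^ k with hρ
    have hρle : ρ ≤ Qf * Real.exp (-(η * k * l)) := by
      have e0 : ρ = (q : ℝ) ^ f * ((N : ℝ) / ((q : ℝ) ^ k * (q : ℝ) ^ k)) + 1 / (q : ℝ) ^ k := by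
        rw [hρ]; field_simp
      rw [e0, hQf, add_mul, one_mul]
      apply add_le_add
      · apply mul_le_mul_of_nonneg_left _ (by positivity)
        rw [pq k, ← Real.exp_add, div_le_iff₀ (Real.exp_pos _), ← Real.exp_add]
        refine le_trans hNexp (Real.exp_le_exp.mpr ?_)
        rw [div_le_iff₀ h1a]
        have : (-(η * k * l) + (k * l + k * l)) * (1 + a)
          = -((η * (1 + a)) * (k * l)) + 2 * (k * l) * (1 + a) := by ring
        rw [this, hηe]
        apply le_of_eq; ring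
      · rw [pq k, one_div, ← Real.exp_neg]
        apply Real.exp_le_exp.mpr
        have : η * (k * l) ≤ 1 * (k * l) := by gcongr
        linarith
    have hρ0 : 0 ≤ ρ := by positivity
    have ht1 : ρ * ((d : ℝ) ^ k * (d : ℝ) ^ k) ≤ Qf * Real.exp (k * l * E1) := by
      calc ρ * ((d : ℝ) ^ k * (d : ℝ) ^ k)
          ≤ (Qf * Real.exp (-(η * k * l))) * ((d : ℝ) ^ k * (d : ℝ) ^ k) := by gcongr
        _ = Qf * Real.exp (k * l * E1) := by
            rw [pd k, ← Real.exp_add, mul_assoc, ← Real.exp_add, hE1η]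
            congr 2; ring
    have ht2 : ((d : ℝ) ^ k * Real.sqrt q ^ k) * (2 * ρ * (Real.sqrt q * Real.sqrt d) ^ h0)
        ≤ 2 * Qf * Real.exp (k * l * E1) := by
      calc ((d : ℝ) ^ k * Real.sqrt q ^ k) * (2 * ρ * (Real.sqrt q * Real.sqrt d) ^ h0)
          ≤ ((d : ℝ) ^ k * Real.sqrt q ^ k) * (2 * (Qf * Real.exp (-(η * k * l))) *
              (Real.sqrt q * Real.sqrt d) ^ h0) := by gcongr
        _ = 2 * Qf * Real.exp (k * (a * l) + k * (l / 2) + (-(η * k * l))
              + h0 * (l / 2 + a * l / 2)) := by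
            rw [pd k, pr k, pre h0, Real.exp_add, Real.exp_add, Real.exp_add]; ring
        _ ≤ 2 * Qf * Real.exp (k * l * E1) := by
            apply mul_le_mul_of_nonneg_left _ (by positivity)
            apply Real.exp_le_exp.mpr
            have e1 : (h0 : ℝ) * (l / 2 + a * l / 2) ≤ (η * k) * (l / 2 + a * l / 2) := by
              apply mul_le_mul_of_nonneg_right hh0a
              have : 0 < a * l := by positivity
              linarith
            have e2 : k * l * E1 = k * (a * l) + k * (l / 2) + (-(η * k * l))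
              + (η * k) * (l / 2 + a * l / 2) := by rw [hE1η2]; ring
            linarith
    have ht3 : ((d : ℝ) ^ k * Real.sqrt q ^ k) * ((Real.sqrt q * Real.sqrt d) *
        (θ ^ h0 / (1 - θ))) ≤ K3 * Real.exp (k * l * E1) := by
      have e3 : θ ^ h0 ≤ (1 / θ) * Real.exp (η * k * (a * l / 2 - l / 2)) := by
        rw [hθ, per h0, ← hθ, hθe, one_div, ← Real.exp_neg, ← Real.exp_add]
        apply Real.exp_le_exp.mpr
        have : a * l / 2 - l / 2 ≤ 0 := by nlinarith
        nlinarith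
      calc ((d : ℝ) ^ k * Real.sqrt q ^ k) * ((Real.sqrt q * Real.sqrt d) * (θ ^ h0 / (1 - θ)))
          ≤ ((d : ℝ) ^ k * Real.sqrt q ^ k) * ((Real.sqrt q * Real.sqrt d) *
              (((1 / θ) * Real.exp (η * k * (a * l / 2 - l / 2))) / (1 - θ))) := by gcongr
        _ = K3 * Real.exp (k * (a * l) + k * (l / 2) + η * k * (a * l / 2 - l / 2)) := by
            rw [pd k, pr k, Real.exp_add, Real.exp_add, hK3]; ring
        _ = _ := by
            congr 2; rw [hE1η2]; ring
    have hsum : ((((Finset.range N).filter (fun n => good q D (k + k) (u * p ^ n))).card : ℕ) : ℝ)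
        ≤ Cc * Real.exp (k * l * E1) := by
      refine le_trans h1 ?_
      rw [mul_add, hCc, add_mul]
      have e4 : 3 * Qf * Real.exp (k * l * E1)
        = Qf * Real.exp (k * l * E1) + 2 * Qf * Real.exp (k * l * E1) := by ring
      rw [e4]
      linarith
    have hfin : Real.exp (k * l * E1) ≤ Real.exp (l * E1) * (N : ℝ) ^ ((1 + 2 * a ^ 2) / 3) := by
      rw [Real.rpow_def_of_pos hN0, ← Real.exp_add]
      apply Real.exp_le_exp.mpr
      have e5 := mul_le_mul_of_nonneg_right hk2' hE10.le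
      have e6 : ((1 + a) / 3 * Real.log N + l) * E1
        = (E1 * (1 + a)) / 3 * Real.log N + l * E1 := by ring
      rw [e6, hE1e] at e5
      linarith
    calc _ ≤ Cc * Real.exp (k * l * E1) := hsum
      _ ≤ Cc * (Real.exp (l * E1) * (N : ℝ) ^ ((1 + 2 * a ^ 2) / 3)) := by gcongr
      _ = Cc * Real.exp (l * E1) * (N : ℝ) ^ ((1 + 2 * a ^ 2) / 3) := by ring
      _ ≤ _ := by
        apply mul_le_mul_of_nonneg_right _ (by positivity)
        have : 0 ≤ Real.exp (3 * f * l / (1 + a)) := (Real.exp_pos _).le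
        linarith

end Pool.Agent.W288.NK
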